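import Mathlib

namespace RBX
open Finset

variable {p : ℕ} [Fact p.Prime]

/-- progression of `m` terms -/
def apSet (a q : ZMod p) (m : ℕ) : Set (ZMod p) := {x | ∃ t : ℕ, t < m ∧ x = a + t * q}

/-- the second or the fourth term is isolated -/
def Iso (H : Set (ZMod p)) (x d : ZMod p) : Prop :=
  ((x ∈ H ↔ x + 2 * d ∈ H) ∧ (x ∈ H ↔ x + 3 * d ∈ H) ∧ (x ∈ H ↔ x + 4 * d ∈ H) ∧ ¬ (x ∈ H ↔ x + d ∈ H)) ∨
  ((x ∈ H ↔ x + d ∈ H) ∧ (x ∈ H ↔ x + 2 * d ∈ H) ∧ (x ∈ H ↔ x + 4 * d ∈ H) ∧ ¬ (x ∈ H ↔ x + 3 * d ∈ H))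

theorem mem_apSet (a q : ZMod p) (m : ℕ) (hq : q ≠ 0) (hm : m ≤ p) (x : ZMod p) :
    x ∈ apSet a q m ↔ ((x - a) * q⁻¹).val < m := by
  constructor
  · rintro ⟨t, ht, rfl⟩
    have e : (a + t * q - a) * q⁻¹ = (t : ZMod p) := by field_simp; ring
    rw [e, ZMod.val_cast_of_lt (lt_of_lt_of_le ht hm)]
    exact ht
  · intro h
    refine ⟨((x - a) * q⁻¹).val, h, ?_⟩
    rw [ZMod.natCast_zmod_val]
    field_simp
    ring

theorem val_step (a b : ZMod p) : (a + b).val = a.val + b.val ∨ (a + b).val + p = a.val + b.val := by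
  rcases lt_or_ge (a.val + b.val) p with h | h
  · left; exact ZMod.val_add_of_lt h
  · right; exact ZMod.val_add_val_of_le h |>.symm

theorem arc_no_iso (a q : ZMod p) (m : ℕ) (hq : q ≠ 0) (hm : p = 2 * m + 1 ∨ p + 1 = 2 * m)
    (x d : ZMod p) : ¬ Iso (apSet a q m) x d := by
  have hp : 2 ≤ p := (Fact.out : p.Prime).two_le
  have hmp : m ≤ p := by omega
  obtain ⟨y, hy⟩ : ∃ y, y = (x - a) * q⁻¹ := ⟨_, rfl⟩
  obtain ⟨e, he⟩ : ∃ e, e = d * q⁻¹ := ⟨_, rfl⟩
  have key : ∀ k : ZMod p, x + k * d ∈ apSet a q m ↔ (y + k * e).val < m := by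
    intro k
    rw [mem_apSet a q m hq hmp, hy, he]
    have : (x + k * d - a) * q⁻¹ = (x - a) * q⁻¹ + k * (d * q⁻¹) := by ring
    rw [this]
  have k0 : x ∈ apSet a q m ↔ y.val < m := by simpa using key 0
  have k1 : x + d ∈ apSet a q m ↔ (y + e).val < m := by simpa using key 1
  have k2 := key 2
  have k3 := key 3
  have k4 := key 4
  have e2 : y + 2 * e = (y + e) + e := by ring
  have e3 : y + 3 * e = (y + 2 * e) + e := by ring
  have e4 : y + 4 * e = (y + 3 * e) + e := by ring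
  have s1 := val_step y e
  have s2 := val_step (y + e) e
  have s3 := val_step (y + 2 * e) e
  have s4 := val_step (y + 3 * e) e
  rw [← e2] at s2
  rw [← e3] at s3
  rw [← e4] at s4
  have b0 := ZMod.val_lt y
  have be := ZMod.val_lt e
  have b1 := ZMod.val_lt (y + e)
  have b2 := ZMod.val_lt (y + 2 * e)
  have b3 := ZMod.val_lt (y + 3 * e)
  have b4 := ZMod.val_lt (y + 4 * e)
  unfold Iso
  rw [k0, k1, k2, k3, k4]
  generalize y.val = v0 at *
  generalize e.val = δ at *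
  generalize (y + e).val = v1 at *
  generalize (y + 2 * e).val = v2 at *
  generalize (y + 3 * e).val = v3 at *
  generalize (y + 4 * e).val = v4 at *
  clear key k0 k1 k2 k3 k4 e2 e3 e4
  omega

end RBX
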