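import Mathlib

namespace RBX
open Finset

variable {p : ℕ} [Fact p.Prime]

/-- sum over all pairs `(x, d)` with `d ≠ 0` -/
def sm (f : ZMod p → ZMod p → ℤ) : ℤ := ∑ x : ZMod p, ∑ d ∈ univ.erase (0 : ZMod p), f x d

theorem sm_add (f g : ZMod p → ZMod p → ℤ) : sm (fun x d => f x d + g x d) = sm f + sm g := by
  simp only [sm, sum_add_distrib]

theorem sm_sub (f g : ZMod p → ZMod p → ℤ) : sm (fun x d => f x d - g x d) = sm f - sm g := by
  simp only [sm, sum_sub_distrib]

theorem sm_mul (a : ℤ) (f : ZMod p → ZMod p → ℤ) : sm (fun x d => a * f x d) = a * sm f := by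
  simp only [sm, mul_sum]

theorem sm_mono (f g : ZMod p → ZMod p → ℤ) (h : ∀ x d, d ≠ 0 → f x d ≤ g x d) : sm f ≤ sm g :=
  sum_le_sum fun x _ => sum_le_sum fun d hd => h x d (by simpa using hd)

theorem sm_const (a : ℤ) : sm (p := p) (fun _ _ => a) = p * (p - 1) * a := by
  have hp : 1 ≤ p := (Fact.out : p.Prime).one_lt.le
  simp only [sm, sum_const, card_erase_of_mem (mem_univ _), card_univ, ZMod.card, nsmul_eq_mul]
  push_cast [Nat.cast_sub hp]
  ring

theorem sm_scale (f : ZMod p → ZMod p → ℤ) (m : ZMod p) (hm : m ≠ 0) :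
    sm (fun x d => f x (m * d)) = sm f := by
  refine sum_congr rfl fun x _ => ?_
  refine sum_bij' (fun d _ => m * d) (fun d _ => m⁻¹ * d) ?_ ?_ ?_ ?_ ?_
  · intro d hd; simp only [mem_erase, mem_univ, and_true, ne_eq] at hd ⊢; exact mul_ne_zero hm hd
  · intro d hd; simp only [mem_erase, mem_univ, and_true, ne_eq] at hd ⊢
    exact mul_ne_zero (inv_ne_zero hm) hd
  · intro d _; rw [← mul_assoc, inv_mul_cancel₀ hm, one_mul]
  · intro d _; rw [← mul_assoc, mul_inv_cancel₀ hm, one_mul]
  · intro d _; rfl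

theorem sm_shift (f : ZMod p → ZMod p → ℤ) (r : ZMod p) :
    sm (fun x d => f (x + r * d) d) = sm f := by
  simp only [sm]
  rw [sum_comm, sum_comm (s := univ) (t := univ.erase (0 : ZMod p)) (f := fun x d => f x d)]
  refine sum_congr rfl fun d _ => ?_
  exact Equiv.sum_comp (Equiv.addRight (r * d)) (fun x => f x d)

/-- values of `c` along the points `x + s d`, `s ∈ L` -/
def vals (c : ZMod p → ℕ) (x d : ZMod p) (L : List ℕ) : List ℕ :=
  L.map (fun s : ℕ => c (x + (s : ZMod p) * d))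

theorem vals_affine (c : ZMod p → ℕ) (x d : ZMod p) (m n r r' : ℕ) (L' L : List ℕ)
    (h : List.Forall₂ (fun s' s => m * s' + r' = n * s + r) L' L) :
    vals c x ((m : ZMod p) * d) L' =
      vals c (x + ((r : ZMod p) - (r' : ZMod p)) * d) ((n : ZMod p) * d) L := by
  induction h with
  | nil => rfl
  | @cons s' s L' L h1 _ ih =>
    simp only [vals, List.map_cons] at ih ⊢
    rw [ih]
    congr 2
    have e : (m : ZMod p) * s' + r' = n * s + r := by exact_mod_cast congrArg (Nat.cast : ℕ → ZMod p) h1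
    have e2 : (m : ZMod p) * s' = n * s + r - r' := by rw [← e]; ring
    calc x + (s' : ZMod p) * ((m : ZMod p) * d) = x + ((m : ZMod p) * s') * d := by ring
      _ = _ := by rw [e2]; ring

theorem sm_affine (c : ZMod p → ℕ) (f : List ℕ → ℤ) (m n r r' : ℕ) (L' L : List ℕ)
    (h : List.Forall₂ (fun s' s => m * s' + r' = n * s + r) L' L)
    (hm : (m : ZMod p) ≠ 0) (hn : (n : ZMod p) ≠ 0) :
    sm (fun x d => f (vals c x d L')) = sm (fun x d => f (vals c x d L)) := by
  rw [← sm_scale (fun x d => f (vals c x d L')) (m : ZMod p) hm]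
  simp only [vals_affine c _ _ m n r r' L' L h]
  rw [sm_shift (fun x d => f (vals c x ((n : ZMod p) * d) L))]
  exact sm_scale (fun x d => f (vals c x d L)) (n : ZMod p) hn

theorem sm_pair {β : Type*} [DecidableEq β] (φ : ZMod p → β) (s : ZMod p) (hs : s ≠ 0) :
    sm (fun x d => if φ x = φ (x + s * d) then (1 : ℤ) else 0) =
      ∑ x : ZMod p, ∑ y : ZMod p, (if φ x = φ y then (1 : ℤ) else 0) - p := by
  have h1 : ∀ x : ZMod p, ∑ d ∈ univ.erase (0 : ZMod p), (if φ x = φ (x + s * d) then (1 : ℤ) else 0)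
      = ∑ y : ZMod p, (if φ x = φ y then (1 : ℤ) else 0) - 1 := by
    intro x
    rw [sum_erase_eq_sub (mem_univ _)]
    have e : (∑ d : ZMod p, (if φ x = φ (x + s * d) then (1 : ℤ) else 0))
        = ∑ y : ZMod p, (if φ x = φ y then (1 : ℤ) else 0) :=
      Equiv.sum_comp ((Equiv.mulLeft₀ s hs).trans (Equiv.addLeft x))
        (fun y => if φ x = φ y then (1 : ℤ) else 0)
    rw [e]
    simp
  simp only [sm, h1, sum_sub_distrib, sum_const, card_univ, ZMod.card, nsmul_eq_mul, mul_one]

theorem sum_pair_fiber {k : ℕ} (c : ZMod p → Fin k) :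
    ∑ x : ZMod p, ∑ y : ZMod p, (if c x = c y then (1 : ℤ) else 0) =
      ∑ a : Fin k, ((univ.filter fun x => c x = a).card : ℤ) ^ 2 := by
  have h1 : ∀ x : ZMod p, ∑ y : ZMod p, (if c x = c y then (1 : ℤ) else 0)
      = ((univ.filter fun y => c y = c x).card : ℤ) := by
    intro x
    rw [sum_boole]
    congr 2
    ext y
    simp [eq_comm]
  simp only [h1]
  rw [← sum_fiberwise (s := univ) (g := c) (f := fun x => ((univ.filter fun y => c y = c x).card : ℤ))]
  refine sum_congr rfl fun a _ => ?_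
  rw [sum_congr rfl (g := fun _ => ((univ.filter fun y => c y = a).card : ℤ))
    (fun x hx => by rw [(mem_filter.mp hx).2])]
  rw [sum_const, nsmul_eq_mul]
  ring

end RBX
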