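import Pool.Agent.RBX.Master
import Pool.Agent.RBX.Arc

namespace RBX
open Finset

variable {p : ℕ} [Fact p.Prime]

theorem sm_count (P : ZMod p → ZMod p → Prop) [∀ x d, Decidable (P x d)] :
    sm (fun x d => if P x d then (1 : ℤ) else 0) =
      (({q : ZMod p × ZMod p | q.2 ≠ 0 ∧ P q.1 q.2}.ncard : ℕ) : ℤ) := by
  classical
  have h1 : ({q : ZMod p × ZMod p | q.2 ≠ 0 ∧ P q.1 q.2}).ncard
      = (univ.filter fun q : ZMod p × ZMod p => q.2 ≠ 0 ∧ P q.1 q.2).card := by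
    rw [← Set.ncard_coe_finset]
    congr 1
    ext q
    simp
  rw [h1, card_filter, ← univ_product_univ, sum_product]
  push_cast
  refine sum_congr rfl fun x _ => ?_
  have h2 : (univ.erase (0 : ZMod p)) = univ.filter fun d : ZMod p => d ≠ 0 := by
    ext d; simp
  rw [h2, sum_filter]
  refine sum_congr rfl fun d _ => ?_
  by_cases hd : d = 0 <;> by_cases hP : P x d <;> simp [hd, hP]

theorem RT_nodup : ∀ a b c d : Fin 4, nb RT (ixl [a.val, b.val, c.val, d.val]) = false ↔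
    [a, b, c, d].Nodup := by
  decide +kernel

set_option synthInstance.maxSize 4000 in
set_option synthInstance.maxHeartbeats 4000000 in
theorem FT_iso : ∀ a b c d e : Fin 4, nb FT (ixl [a.val, b.val, c.val, d.val, e.val]) = false ↔
    ((((a = 0 ∨ a = 1) ↔ (c = 0 ∨ c = 1)) ∧ ((a = 0 ∨ a = 1) ↔ (d = 0 ∨ d = 1)) ∧
      ((a = 0 ∨ a = 1) ↔ (e = 0 ∨ e = 1)) ∧ ¬ ((a = 0 ∨ a = 1) ↔ (b = 0 ∨ b = 1))) ∨
    (((a = 0 ∨ a = 1) ↔ (b = 0 ∨ b = 1)) ∧ ((a = 0 ∨ a = 1) ↔ (c = 0 ∨ c = 1)) ∧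
      ((a = 0 ∨ a = 1) ↔ (e = 0 ∨ e = 1)) ∧ ¬ ((a = 0 ∨ a = 1) ↔ (d = 0 ∨ d = 1)))) := by
  decide +kernel

/-- the number of rainbow pairs -/
noncomputable def rbc (c : ZMod p → Fin 4) : ℕ :=
  {q : ZMod p × ZMod p | q.2 ≠ 0 ∧
    [c q.1, c (q.1 + q.2), c (q.1 + 2 * q.2), c (q.1 + 3 * q.2)].Nodup}.ncard

/-- the number of isolated patterns -/
noncomputable def isc (H : Set (ZMod p)) : ℕ :=
  {q : ZMod p × ZMod p | q.2 ≠ 0 ∧ Iso H q.1 q.2}.ncard

theorem R4_eq (c : ZMod p → Fin 4) : R4 (fun x => (c x).val) = (rbc c : ℤ) := by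
  unfold R4 rbc
  rw [sm_count]
  congr 2
  ext q
  simp only [Set.mem_ofPred_eq]
  rw [← RT_nodup]
  simp [vals]

theorem E5_eq (c : ZMod p → Fin 4) : E5 (fun x => (c x).val) = (isc {x | c x = 0 ∨ c x = 1} : ℤ) := by
  unfold E5 isc
  rw [sm_count]
  congr 2
  ext q
  simp only [Set.mem_ofPred_eq, Iso]
  rw [← FT_iso]
  simp [vals]

/-- class size -/
noncomputable def csz (c : ZMod p → Fin 4) (i : Fin 4) : ℕ := {x | c x = i}.ncard

theorem csz_eq (c : ZMod p → Fin 4) (i : Fin 4) : csz c i = (univ.filter fun x => c x = i).card := by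
  unfold csz
  rw [← Set.ncard_coe_finset]
  congr 1
  ext x; simp

theorem csz_sum (c : ZMod p → Fin 4) : csz c 0 + csz c 1 + csz c 2 + csz c 3 = p := by
  have h := card_eq_sum_card_fiberwise (s := (univ : Finset (ZMod p))) (t := (univ : Finset (Fin 4)))
    (f := c) (fun x _ => mem_univ _)
  rw [card_univ, ZMod.card] at h
  simp only [csz_eq]
  rw [Fin.sum_univ_four] at h
  exact h.symm

theorem Pc_eq (c : ZMod p → Fin 4) : Pc (fun x => (c x).val) =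
    (csz c 0 : ℤ) ^ 2 + (csz c 1 : ℤ) ^ 2 + (csz c 2 : ℤ) ^ 2 + (csz c 3 : ℤ) ^ 2 - p := by
  unfold Pc
  have h := sum_pair_fiber c
  rw [Fin.sum_univ_four] at h
  simp only [csz_eq]
  rw [← h]
  congr 1
  refine sum_congr rfl fun x _ => sum_congr rfl fun y _ => ?_
  simp only [Fin.ext_iff]

theorem Pc_side (c : ZMod p → Fin 4) :
    (p : ℤ) ^ 2 ≤ 2 * (Pc (fun x => (c x).val / 2) + p) := by
  have hlt : ∀ x, (c x).val / 2 < 2 := fun x => by have := (c x).isLt; omega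
  let s : ZMod p → Fin 2 := fun x => ⟨(c x).val / 2, hlt x⟩
  have h := sum_pair_fiber s
  rw [Fin.sum_univ_two] at h
  have h2 : Pc (fun x => (c x).val / 2) + p
      = ((univ.filter fun x => s x = 0).card : ℤ) ^ 2 + ((univ.filter fun x => s x = 1).card : ℤ) ^ 2 := by
    rw [← h]
    unfold Pc
    rw [sub_add_cancel]
    refine sum_congr rfl fun x _ => sum_congr rfl fun y _ => ?_
    simp only [s, Fin.mk.injEq]
  have h3 := card_eq_sum_card_fiberwise (s := (univ : Finset (ZMod p))) (t := (univ : Finset (Fin 2)))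
    (f := s) (fun x _ => mem_univ _)
  rw [card_univ, ZMod.card, Fin.sum_univ_two] at h3
  have h4 : (p : ℤ) = ((univ.filter fun x => s x = 0).card : ℤ) + ((univ.filter fun x => s x = 1).card : ℤ) := by
    exact_mod_cast h3
  rw [h2, h4]
  nlinarith [sq_nonneg (((univ.filter fun x => s x = 0).card : ℤ) - ((univ.filter fun x => s x = 1).card : ℤ))]

/-- the main inequality, pair `{0, 1}` -/
theorem main01 (hp : 11 ≤ p) (c : ZMod p → Fin 4) :
    8164 * (p : ℤ) ^ 2 + 1244432 * p ≤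
      129999 * ((4 * (csz c 0 : ℤ) - p) ^ 2 + (4 * (csz c 1 : ℤ) - p) ^ 2 +
        (4 * (csz c 2 : ℤ) - p) ^ 2 + (4 * (csz c 3 : ℤ) - p) ^ 2) +
      13532512 * (11 * (rbc c : ℤ) + 6 * (isc {x | c x = 0 ∨ c x = 1} : ℤ)) := by
  have h := master hp (fun x => (c x).val) (fun x => (c x).isLt)
  rw [R4_eq, E5_eq, Pc_eq] at h
  have h1 := Pc_side c
  have h2 : (csz c 0 : ℤ) + csz c 1 + csz c 2 + csz c 3 = p := by exact_mod_cast csz_sum c
  have h3 : (4 * (csz c 0 : ℤ) - p) ^ 2 + (4 * (csz c 1 : ℤ) - p) ^ 2 +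
        (4 * (csz c 2 : ℤ) - p) ^ 2 + (4 * (csz c 3 : ℤ) - p) ^ 2 =
        16 * ((csz c 0 : ℤ) ^ 2 + (csz c 1 : ℤ) ^ 2 + (csz c 2 : ℤ) ^ 2 + (csz c 3 : ℤ) ^ 2)
          - 4 * (p : ℤ) ^ 2 := by
    rw [← h2]; ring
  rw [h3]
  nlinarith [h, h1]

end RBX
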