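import Pool.Agent.RBX.Sem

namespace RBX

/-- pair term of the cost -/
def pr (w : ℕ → ℕ) (l k : ℤ) (j : ℕ) : ℤ :=
  (if w 0 = w j then l else 0) + (if w 0 / 2 = w j / 2 then k else 0)

/-- the cost of a window -/
def cost (w : ℕ → ℕ) : ℤ :=
  pr w (31455) (-8165) 1 +
  pr w (15880) (187) 2 +
  pr w (31070) (-18379) 3 +
  pr w (6060) (3552) 4 +
  pr w (18260) (-4331) 5 +
  pr w (730) (2475) 6 +
  pr w (13902) (-11536) 7 +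
  pr w (4537) (926) 8 +
  pr w (8105) (-3153) 9 +
  ((gv TB0 w [0, 1, 2, 3, 4, 5, 6] : ℤ) - gv TB0 w [1, 3, 4, 5, 6, 7, 8]) +
  ((gv TB1 w [0, 1, 2, 3, 4, 5, 8] : ℤ) - gv TB1 w [2, 4, 5, 6, 7, 8, 9]) +
  ((gv TB2 w [1, 2, 3, 4, 5, 6, 7] : ℤ) - gv TB2 w [2, 3, 4, 5, 6, 7, 8]) +
  ((gv TB3 w [0, 1, 3, 5, 7, 9] : ℤ) - gv TB3 w [2, 3, 4, 5, 6, 8]) +
  ((gv TB4 w [0, 1, 2, 3, 4, 7] : ℤ) - gv TB4 w [3, 5, 6, 7, 8, 9]) +
  ((gv TB5 w [0, 1, 3, 5, 7, 9] : ℤ) - gv TB5 w [1, 2, 3, 4, 5, 7]) +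
  ((gv TB6 w [0, 2, 5, 8, 9] : ℤ) - gv TB6 w [2, 3, 4, 5, 6]) +
  ((gv TB7 w [0, 1, 2, 3, 5] : ℤ) - gv TB7 w [0, 3, 5, 7, 9]) +
  ((gv TB8 w [0, 1, 2, 3, 6] : ℤ) - gv TB8 w [4, 6, 7, 8, 9]) +
  ((gv TB9 w [0, 2, 5, 8, 9] : ℤ) - gv TB9 w [4, 5, 6, 7, 8]) +
  ((gv TB10 w [0, 1, 3, 5, 7] : ℤ) - gv TB10 w [0, 2, 5, 8, 9]) +
  ((gv TB11 w [1, 6, 9] : ℤ) - gv TB11 w [5, 6, 7])

theorem inc1_eq (w : ℕ → ℕ) (hw : ∀ i, w i < 4) (h0 : w 0 = 0) :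
    ((inc1 (pk w 2) : ℕ) : ℤ) =
    (pr w (31455) (-8165) 1 + 8165) := by
  have b0 := hw 0
  have b1 := hw 1
  have ew : (pk w 2) >>> 2 = w 1 := by
    have q : (pk w 2) >>> 2 = (w 1 + 4 * 0) := pk_run' w hw 2 1 1 rfl
    rw [q]; rfl
  have e0 : ((9413613062627346381535 >>> (20 * ((pk w 2) >>> 2)) % 1048576 : ℕ) : ℤ) = pr w (31455) (-8165) 1 + 8165 := by
    rw [ew]
    unfold pr
    rw [h0]
    rcases (by omega : w 1 = 0 ∨ w 1 = 1 ∨ w 1 = 2 ∨ w 1 = 3) with e | e | e | e <;> rw [e] <;> rfl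
  have e : inc1 (pk w 2) = (9413613062627346381535 >>> (20 * ((pk w 2) >>> 2)) % 1048576 : ℕ) := rfl
  rw [e]
  omega

theorem inc2_eq (w : ℕ → ℕ) (hw : ∀ i, w i < 4) (h0 : w 0 = 0) :
    ((inc2 (pk w 3) : ℕ) : ℤ) =
    (pr w (15880) (187) 2 + 0) := by
  have b0 := hw 0
  have b1 := hw 1
  have b2 := hw 2
  have ew : (pk w 3) >>> 4 = w 2 := by
    have q : (pk w 3) >>> 4 = (w 2 + 4 * 0) := pk_run' w hw 3 2 1 rfl
    rw [q]; rfl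
  have e0 : ((196099779 >>> (20 * ((pk w 3) >>> 4)) % 1048576 : ℕ) : ℤ) = pr w (15880) (187) 2 + 0 := by
    rw [ew]
    unfold pr
    rw [h0]
    rcases (by omega : w 2 = 0 ∨ w 2 = 1 ∨ w 2 = 2 ∨ w 2 = 3) with e | e | e | e <;> rw [e] <;> rfl
  have e : inc2 (pk w 3) = (196099779 >>> (20 * ((pk w 3) >>> 4)) % 1048576 : ℕ) := rfl
  rw [e]
  omega

theorem inc3_eq (w : ℕ → ℕ) (hw : ∀ i, w i < 4) (h0 : w 0 = 0) :
    ((inc3 (pk w 4) : ℕ) : ℤ) =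
    (pr w (31070) (-18379) 3 + 18379) := by
  have b0 := hw 0
  have b1 := hw 1
  have b2 := hw 2
  have b3 := hw 3
  have ew : (pk w 4) >>> 6 = w 3 := by
    have q : (pk w 4) >>> 6 = (w 3 + 4 * 0) := pk_run' w hw 4 3 1 rfl
    rw [q]; rfl
  have e0 : ((21189564541093447498078 >>> (20 * ((pk w 4) >>> 6)) % 1048576 : ℕ) : ℤ) = pr w (31070) (-18379) 3 + 18379 := by
    rw [ew]
    unfold pr
    rw [h0]
    rcases (by omega : w 3 = 0 ∨ w 3 = 1 ∨ w 3 = 2 ∨ w 3 = 3) with e | e | e | e <;> rw [e] <;> rfl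
  have e : inc3 (pk w 4) = (21189564541093447498078 >>> (20 * ((pk w 4) >>> 6)) % 1048576 : ℕ) := rfl
  rw [e]
  omega

theorem inc4_eq (w : ℕ → ℕ) (hw : ∀ i, w i < 4) (h0 : w 0 = 0) :
    ((inc4 (pk w 5) : ℕ) : ℤ) =
    (pr w (6060) (3552) 4 + 0) := by
  have b0 := hw 0
  have b1 := hw 1
  have b2 := hw 2
  have b3 := hw 3
  have b4 := hw 4
  have ew : (pk w 5) >>> 8 = w 4 := by
    have q : (pk w 5) >>> 8 = (w 4 + 4 * 0) := pk_run' w hw 5 4 1 rfl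
    rw [q]; rfl
  have e0 : ((3724551564 >>> (20 * ((pk w 5) >>> 8)) % 1048576 : ℕ) : ℤ) = pr w (6060) (3552) 4 + 0 := by
    rw [ew]
    unfold pr
    rw [h0]
    rcases (by omega : w 4 = 0 ∨ w 4 = 1 ∨ w 4 = 2 ∨ w 4 = 3) with e | e | e | e <;> rw [e] <;> rfl
  have e : inc4 (pk w 5) = (3724551564 >>> (20 * ((pk w 5) >>> 8)) % 1048576 : ℕ) := rfl
  rw [e]
  omega

theorem inc5_eq (w : ℕ → ℕ) (hw : ∀ i, w i < 4) (h0 : w 0 = 0) :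
    ((inc5 (pk w 6) : ℕ) : ℤ) =
    (pr w (18260) (-4331) 5 + 4331) + (gv TB7 w [0, 1, 2, 3, 5] : ℤ) := by
  have b0 := hw 0
  have b1 := hw 1
  have b2 := hw 2
  have b3 := hw 3
  have b4 := hw 4
  have b5 := hw 5
  have ew : (pk w 6) >>> 10 = w 5 := by
    have q : (pk w 6) >>> 10 = (w 5 + 4 * 0) := pk_run' w hw 6 5 1 rfl
    rw [q]; rfl
  have e0 : ((4993307798437114169172 >>> (20 * ((pk w 6) >>> 10)) % 1048576 : ℕ) : ℤ) = pr w (18260) (-4331) 5 + 4331 := by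
    rw [ew]
    unfold pr
    rw [h0]
    rcases (by omega : w 5 = 0 ∨ w 5 = 1 ∨ w 5 = 2 ∨ w 5 = 3) with e | e | e | e <;> rw [e] <;> rfl
  have e1 : lk TB7 341 (((pk w 6) % 256) + (((pk w 6) >>> 10) * 256)) = gv TB7 w [0, 1, 2, 3, 5] :=
    lk_eq TB7 w hw 0 [1, 2, 3, 5] 341 _ rfl (by
      have q0 : ((pk w 6) % 256) = (w 0 + 4 * (w 1 + 4 * (w 2 + 4 * (w 3 + 4 * 0)))) := pk_run w hw 6 0 4 2 rfl
      have q1 : ((pk w 6) >>> 10) = (w 5 + 4 * 0) := pk_run' w hw 6 5 1 rfl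
      rw [q0, q1]
      simp only [ix]
      ring)
  have e : inc5 (pk w 6) = ((4993307798437114169172 >>> (20 * ((pk w 6) >>> 10)) % 1048576 : ℕ) + lk TB7 341 (((pk w 6) % 256) + (((pk w 6) >>> 10) * 256))) := rfl
  rw [e]
  rw [e1]
  omega

theorem inc6_eq (w : ℕ → ℕ) (hw : ∀ i, w i < 4) (h0 : w 0 = 0) :
    ((inc6 (pk w 7) : ℕ) : ℤ) =
    (pr w (730) (2475) 6 + 0) + (gv TB0 w [0, 1, 2, 3, 4, 5, 6] : ℤ) + (65535 - (gv TB6 w [2, 3, 4, 5, 6] : ℤ)) + (gv TB8 w [0, 1, 2, 3, 6] : ℤ) := by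
  have b0 := hw 0
  have b1 := hw 1
  have b2 := hw 2
  have b3 := hw 3
  have b4 := hw 4
  have b5 := hw 5
  have b6 := hw 6
  have ew : (pk w 7) >>> 12 = w 6 := by
    have q : (pk w 7) >>> 12 = (w 6 + 4 * 0) := pk_run' w hw 7 6 1 rfl
    rw [q]; rfl
  have e0 : ((2595228805 >>> (20 * ((pk w 7) >>> 12)) % 1048576 : ℕ) : ℤ) = pr w (730) (2475) 6 + 0 := by
    rw [ew]
    unfold pr
    rw [h0]
    rcases (by omega : w 6 = 0 ∨ w 6 = 1 ∨ w 6 = 2 ∨ w 6 = 3) with e | e | e | e <;> rw [e] <;> rfl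
  have e1 : lk TB0 5461 (pk w 7) = gv TB0 w [0, 1, 2, 3, 4, 5, 6] :=
    lk_eq TB0 w hw 0 [1, 2, 3, 4, 5, 6] 5461 _ rfl (by
      have q0 : pk w 7 = (w 0 + 4 * (w 1 + 4 * (w 2 + 4 * (w 3 + 4 * (w 4 + 4 * (w 5 + 4 * (w 6 + 4 * 0))))))) := pk_run' w hw 7 0 7 rfl
      rw [q0]
      simp only [ix])
  have e2 : lc TB6 341 ((pk w 7) >>> 4) = 65535 - gv TB6 w [2, 3, 4, 5, 6] :=
    lc_eq TB6 w hw 2 [3, 4, 5, 6] 341 _ rfl (by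
      have q0 : ((pk w 7) >>> 4) = (w 2 + 4 * (w 3 + 4 * (w 4 + 4 * (w 5 + 4 * (w 6 + 4 * 0))))) := pk_run' w hw 7 2 5 rfl
      rw [q0]
      simp only [ix])
  have e3 : lk TB8 341 (((pk w 7) % 256) + (((pk w 7) >>> 12) * 256)) = gv TB8 w [0, 1, 2, 3, 6] :=
    lk_eq TB8 w hw 0 [1, 2, 3, 6] 341 _ rfl (by
      have q0 : ((pk w 7) % 256) = (w 0 + 4 * (w 1 + 4 * (w 2 + 4 * (w 3 + 4 * 0)))) := pk_run w hw 7 0 4 3 rfl
      have q1 : ((pk w 7) >>> 12) = (w 6 + 4 * 0) := pk_run' w hw 7 6 1 rfl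
      rw [q0, q1]
      simp only [ix]
      ring)
  have e : inc6 (pk w 7) = ((((2595228805 >>> (20 * ((pk w 7) >>> 12)) % 1048576 : ℕ) + lk TB0 5461 (pk w 7)) + lc TB6 341 ((pk w 7) >>> 4)) + lk TB8 341 (((pk w 7) % 256) + (((pk w 7) >>> 12) * 256))) := rfl
  rw [e]
  rw [e1, e2, e3]
  have g2 := gv_lt TB6 w [2, 3, 4, 5, 6]
  omega

theorem inc7_eq (w : ℕ → ℕ) (hw : ∀ i, w i < 4) (h0 : w 0 = 0) :
    ((inc7 (pk w 8) : ℕ) : ℤ) =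
    (pr w (13902) (-11536) 7 + 11536) + (gv TB2 w [1, 2, 3, 4, 5, 6, 7] : ℤ) + (gv TB4 w [0, 1, 2, 3, 4, 7] : ℤ) + (65535 - (gv TB5 w [1, 2, 3, 4, 5, 7] : ℤ)) + (gv TB10 w [0, 1, 3, 5, 7] : ℤ) + (65535 - (gv TB11 w [5, 6, 7] : ℤ)) := by
  have b0 := hw 0
  have b1 := hw 1
  have b2 := hw 2
  have b3 := hw 3
  have b4 := hw 4
  have b5 := hw 5
  have b6 := hw 6
  have b7 := hw 7
  have ew : (pk w 8) >>> 14 = w 7 := by
    have q : (pk w 8) >>> 14 = (w 7 + 4 * 0) := pk_run' w hw 8 7 1 rfl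
    rw [q]; rfl
  have e0 : ((13300115161110724752974 >>> (20 * ((pk w 8) >>> 14)) % 1048576 : ℕ) : ℤ) = pr w (13902) (-11536) 7 + 11536 := by
    rw [ew]
    unfold pr
    rw [h0]
    rcases (by omega : w 7 = 0 ∨ w 7 = 1 ∨ w 7 = 2 ∨ w 7 = 3) with e | e | e | e <;> rw [e] <;> rfl
  have e1 : lk TB2 5461 ((pk w 8) >>> 2) = gv TB2 w [1, 2, 3, 4, 5, 6, 7] :=
    lk_eq TB2 w hw 1 [2, 3, 4, 5, 6, 7] 5461 _ rfl (by
      have q0 : ((pk w 8) >>> 2) = (w 1 + 4 * (w 2 + 4 * (w 3 + 4 * (w 4 + 4 * (w 5 + 4 * (w 6 + 4 * (w 7 + 4 * 0))))))) := pk_run' w hw 8 1 7 rfl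
      rw [q0]
      simp only [ix])
  have e2 : lk TB4 1365 (((pk w 8) % 1024) + (((pk w 8) >>> 14) * 1024)) = gv TB4 w [0, 1, 2, 3, 4, 7] :=
    lk_eq TB4 w hw 0 [1, 2, 3, 4, 7] 1365 _ rfl (by
      have q0 : ((pk w 8) % 1024) = (w 0 + 4 * (w 1 + 4 * (w 2 + 4 * (w 3 + 4 * (w 4 + 4 * 0))))) := pk_run w hw 8 0 5 3 rfl
      have q1 : ((pk w 8) >>> 14) = (w 7 + 4 * 0) := pk_run' w hw 8 7 1 rfl
      rw [q0, q1]
      simp only [ix]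
      ring)
  have e3 : lc TB5 1365 ((((pk w 8) >>> 2) % 1024) + (((pk w 8) >>> 14) * 1024)) = 65535 - gv TB5 w [1, 2, 3, 4, 5, 7] :=
    lc_eq TB5 w hw 1 [2, 3, 4, 5, 7] 1365 _ rfl (by
      have q0 : (((pk w 8) >>> 2) % 1024) = (w 1 + 4 * (w 2 + 4 * (w 3 + 4 * (w 4 + 4 * (w 5 + 4 * 0))))) := pk_run w hw 8 1 5 2 rfl
      have q1 : ((pk w 8) >>> 14) = (w 7 + 4 * 0) := pk_run' w hw 8 7 1 rfl
      rw [q0, q1]
      simp only [ix]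
      ring)
  have e4 : lk TB10 341 (((((pk w 8) % 16) + ((((pk w 8) >>> 6) % 4) * 16)) + ((((pk w 8) >>> 10) % 4) * 64)) + (((pk w 8) >>> 14) * 256)) = gv TB10 w [0, 1, 3, 5, 7] :=
    lk_eq TB10 w hw 0 [1, 3, 5, 7] 341 _ rfl (by
      have q0 : ((pk w 8) % 16) = (w 0 + 4 * (w 1 + 4 * 0)) := pk_run w hw 8 0 2 6 rfl
      have q1 : (((pk w 8) >>> 6) % 4) = (w 3 + 4 * 0) := pk_run w hw 8 3 1 4 rfl
      have q2 : (((pk w 8) >>> 10) % 4) = (w 5 + 4 * 0) := pk_run w hw 8 5 1 2 rfl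
      have q3 : ((pk w 8) >>> 14) = (w 7 + 4 * 0) := pk_run' w hw 8 7 1 rfl
      rw [q0, q1, q2, q3]
      simp only [ix]
      ring)
  have e5 : lc TB11 21 ((pk w 8) >>> 10) = 65535 - gv TB11 w [5, 6, 7] :=
    lc_eq TB11 w hw 5 [6, 7] 21 _ rfl (by
      have q0 : ((pk w 8) >>> 10) = (w 5 + 4 * (w 6 + 4 * (w 7 + 4 * 0))) := pk_run' w hw 8 5 3 rfl
      rw [q0]
      simp only [ix])
  have e : inc7 (pk w 8) = ((((((13300115161110724752974 >>> (20 * ((pk w 8) >>> 14)) % 1048576 : ℕ) + lk TB2 5461 ((pk w 8) >>> 2)) + lk TB4 1365 (((pk w 8) % 1024) + (((pk w 8) >>> 14) * 1024))) + lc TB5 1365 ((((pk w 8) >>> 2) % 1024) + (((pk w 8) >>> 14) * 1024))) + lk TB10 341 (((((pk w 8) % 16) + ((((pk w 8) >>> 6) % 4) * 16)) + ((((pk w 8) >>> 10) % 4) * 64)) + (((pk w 8) >>> 14) * 256))) + lc TB11 21 ((pk w 8) >>> 10)) := rfl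
  rw [e]
  rw [e1, e2, e3, e4, e5]
  have g3 := gv_lt TB5 w [1, 2, 3, 4, 5, 7]
  have g5 := gv_lt TB11 w [5, 6, 7]
  omega

theorem inc8_eq (w : ℕ → ℕ) (hw : ∀ i, w i < 4) (h0 : w 0 = 0) :
    ((inc8 (pk w 9) : ℕ) : ℤ) =
    (pr w (4537) (926) 8 + 0) + (65535 - (gv TB0 w [1, 3, 4, 5, 6, 7, 8] : ℤ)) + (gv TB1 w [0, 1, 2, 3, 4, 5, 8] : ℤ) + (65535 - (gv TB2 w [2, 3, 4, 5, 6, 7, 8] : ℤ)) + (65535 - (gv TB3 w [2, 3, 4, 5, 6, 8] : ℤ)) + (65535 - (gv TB9 w [4, 5, 6, 7, 8] : ℤ)) := by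
  have b0 := hw 0
  have b1 := hw 1
  have b2 := hw 2
  have b3 := hw 3
  have b4 := hw 4
  have b5 := hw 5
  have b6 := hw 6
  have b7 := hw 7
  have b8 := hw 8
  have ew : (pk w 9) >>> 16 = w 8 := by
    have q : (pk w 9) >>> 16 = (w 8 + 4 * 0) := pk_run' w hw 9 8 1 rfl
    rw [q]; rfl
  have e0 : ((970986839 >>> (20 * ((pk w 9) >>> 16)) % 1048576 : ℕ) : ℤ) = pr w (4537) (926) 8 + 0 := by
    rw [ew]
    unfold pr
    rw [h0]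
    rcases (by omega : w 8 = 0 ∨ w 8 = 1 ∨ w 8 = 2 ∨ w 8 = 3) with e | e | e | e <;> rw [e] <;> rfl
  have e1 : lc TB0 5461 ((((pk w 9) >>> 2) % 4) + (((pk w 9) >>> 6) * 4)) = 65535 - gv TB0 w [1, 3, 4, 5, 6, 7, 8] :=
    lc_eq TB0 w hw 1 [3, 4, 5, 6, 7, 8] 5461 _ rfl (by
      have q0 : (((pk w 9) >>> 2) % 4) = (w 1 + 4 * 0) := pk_run w hw 9 1 1 7 rfl
      have q1 : ((pk w 9) >>> 6) = (w 3 + 4 * (w 4 + 4 * (w 5 + 4 * (w 6 + 4 * (w 7 + 4 * (w 8 + 4 * 0)))))) := pk_run' w hw 9 3 6 rfl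
      rw [q0, q1]
      simp only [ix]
      ring)
  have e2 : lk TB1 5461 (((pk w 9) % 4096) + (((pk w 9) >>> 16) * 4096)) = gv TB1 w [0, 1, 2, 3, 4, 5, 8] :=
    lk_eq TB1 w hw 0 [1, 2, 3, 4, 5, 8] 5461 _ rfl (by
      have q0 : ((pk w 9) % 4096) = (w 0 + 4 * (w 1 + 4 * (w 2 + 4 * (w 3 + 4 * (w 4 + 4 * (w 5 + 4 * 0)))))) := pk_run w hw 9 0 6 3 rfl
      have q1 : ((pk w 9) >>> 16) = (w 8 + 4 * 0) := pk_run' w hw 9 8 1 rfl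
      rw [q0, q1]
      simp only [ix]
      ring)
  have e3 : lc TB2 5461 ((pk w 9) >>> 4) = 65535 - gv TB2 w [2, 3, 4, 5, 6, 7, 8] :=
    lc_eq TB2 w hw 2 [3, 4, 5, 6, 7, 8] 5461 _ rfl (by
      have q0 : ((pk w 9) >>> 4) = (w 2 + 4 * (w 3 + 4 * (w 4 + 4 * (w 5 + 4 * (w 6 + 4 * (w 7 + 4 * (w 8 + 4 * 0))))))) := pk_run' w hw 9 2 7 rfl
      rw [q0]
      simp only [ix])
  have e4 : lc TB3 1365 ((((pk w 9) >>> 4) % 1024) + (((pk w 9) >>> 16) * 1024)) = 65535 - gv TB3 w [2, 3, 4, 5, 6, 8] :=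
    lc_eq TB3 w hw 2 [3, 4, 5, 6, 8] 1365 _ rfl (by
      have q0 : (((pk w 9) >>> 4) % 1024) = (w 2 + 4 * (w 3 + 4 * (w 4 + 4 * (w 5 + 4 * (w 6 + 4 * 0))))) := pk_run w hw 9 2 5 2 rfl
      have q1 : ((pk w 9) >>> 16) = (w 8 + 4 * 0) := pk_run' w hw 9 8 1 rfl
      rw [q0, q1]
      simp only [ix]
      ring)
  have e5 : lc TB9 341 ((pk w 9) >>> 8) = 65535 - gv TB9 w [4, 5, 6, 7, 8] :=
    lc_eq TB9 w hw 4 [5, 6, 7, 8] 341 _ rfl (by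
      have q0 : ((pk w 9) >>> 8) = (w 4 + 4 * (w 5 + 4 * (w 6 + 4 * (w 7 + 4 * (w 8 + 4 * 0))))) := pk_run' w hw 9 4 5 rfl
      rw [q0]
      simp only [ix])
  have e : inc8 (pk w 9) = ((((((970986839 >>> (20 * ((pk w 9) >>> 16)) % 1048576 : ℕ) + lc TB0 5461 ((((pk w 9) >>> 2) % 4) + (((pk w 9) >>> 6) * 4))) + lk TB1 5461 (((pk w 9) % 4096) + (((pk w 9) >>> 16) * 4096))) + lc TB2 5461 ((pk w 9) >>> 4)) + lc TB3 1365 ((((pk w 9) >>> 4) % 1024) + (((pk w 9) >>> 16) * 1024))) + lc TB9 341 ((pk w 9) >>> 8)) := rfl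
  rw [e]
  rw [e1, e2, e3, e4, e5]
  have g1 := gv_lt TB0 w [1, 3, 4, 5, 6, 7, 8]
  have g3 := gv_lt TB2 w [2, 3, 4, 5, 6, 7, 8]
  have g4 := gv_lt TB3 w [2, 3, 4, 5, 6, 8]
  have g5 := gv_lt TB9 w [4, 5, 6, 7, 8]
  omega

theorem inc9_eq (w : ℕ → ℕ) (hw : ∀ i, w i < 4) (h0 : w 0 = 0) :
    ((inc9 (pk w 10) : ℕ) : ℤ) =
    (pr w (8105) (-3153) 9 + 3153) + (65535 - (gv TB1 w [2, 4, 5, 6, 7, 8, 9] : ℤ)) + (gv TB3 w [0, 1, 3, 5, 7, 9] : ℤ) + (65535 - (gv TB4 w [3, 5, 6, 7, 8, 9] : ℤ)) + (gv TB5 w [0, 1, 3, 5, 7, 9] : ℤ) + (gv TB6 w [0, 2, 5, 8, 9] : ℤ) + (65535 - (gv TB7 w [0, 3, 5, 7, 9] : ℤ)) + (65535 - (gv TB8 w [4, 6, 7, 8, 9] : ℤ)) + (gv TB9 w [0, 2, 5, 8, 9] : ℤ) + (65535 - (gv TB10 w [0, 2, 5, 8, 9] : ℤ)) + (gv TB11 w [1, 6, 9] : ℤ) := by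
  have b0 := hw 0
  have b1 := hw 1
  have b2 := hw 2
  have b3 := hw 3
  have b4 := hw 4
  have b5 := hw 5
  have b6 := hw 6
  have b7 := hw 7
  have b8 := hw 8
  have b9 := hw 9
  have ew : (pk w 10) >>> 18 = w 9 := by
    have q : (pk w 10) >>> 18 = (w 9 + 4 * 0) := pk_run' w hw 10 9 1 rfl
    rw [q]; rfl
  have e0 : ((3635164970785550901161 >>> (20 * ((pk w 10) >>> 18)) % 1048576 : ℕ) : ℤ) = pr w (8105) (-3153) 9 + 3153 := by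
    rw [ew]
    unfold pr
    rw [h0]
    rcases (by omega : w 9 = 0 ∨ w 9 = 1 ∨ w 9 = 2 ∨ w 9 = 3) with e | e | e | e <;> rw [e] <;> rfl
  have e1 : lc TB1 5461 ((((pk w 10) >>> 4) % 4) + (((pk w 10) >>> 8) * 4)) = 65535 - gv TB1 w [2, 4, 5, 6, 7, 8, 9] :=
    lc_eq TB1 w hw 2 [4, 5, 6, 7, 8, 9] 5461 _ rfl (by
      have q0 : (((pk w 10) >>> 4) % 4) = (w 2 + 4 * 0) := pk_run w hw 10 2 1 7 rfl
      have q1 : ((pk w 10) >>> 8) = (w 4 + 4 * (w 5 + 4 * (w 6 + 4 * (w 7 + 4 * (w 8 + 4 * (w 9 + 4 * 0)))))) := pk_run' w hw 10 4 6 rfl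
      rw [q0, q1]
      simp only [ix]
      ring)
  have e2 : lk TB3 1365 ((((((pk w 10) % 16) + ((((pk w 10) >>> 6) % 4) * 16)) + ((((pk w 10) >>> 10) % 4) * 64)) + ((((pk w 10) >>> 14) % 4) * 256)) + (((pk w 10) >>> 18) * 1024)) = gv TB3 w [0, 1, 3, 5, 7, 9] :=
    lk_eq TB3 w hw 0 [1, 3, 5, 7, 9] 1365 _ rfl (by
      have q0 : ((pk w 10) % 16) = (w 0 + 4 * (w 1 + 4 * 0)) := pk_run w hw 10 0 2 8 rfl
      have q1 : (((pk w 10) >>> 6) % 4) = (w 3 + 4 * 0) := pk_run w hw 10 3 1 6 rfl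
      have q2 : (((pk w 10) >>> 10) % 4) = (w 5 + 4 * 0) := pk_run w hw 10 5 1 4 rfl
      have q3 : (((pk w 10) >>> 14) % 4) = (w 7 + 4 * 0) := pk_run w hw 10 7 1 2 rfl
      have q4 : ((pk w 10) >>> 18) = (w 9 + 4 * 0) := pk_run' w hw 10 9 1 rfl
      rw [q0, q1, q2, q3, q4]
      simp only [ix]
      ring)
  have e3 : lc TB4 1365 ((((pk w 10) >>> 6) % 4) + (((pk w 10) >>> 10) * 4)) = 65535 - gv TB4 w [3, 5, 6, 7, 8, 9] :=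
    lc_eq TB4 w hw 3 [5, 6, 7, 8, 9] 1365 _ rfl (by
      have q0 : (((pk w 10) >>> 6) % 4) = (w 3 + 4 * 0) := pk_run w hw 10 3 1 6 rfl
      have q1 : ((pk w 10) >>> 10) = (w 5 + 4 * (w 6 + 4 * (w 7 + 4 * (w 8 + 4 * (w 9 + 4 * 0))))) := pk_run' w hw 10 5 5 rfl
      rw [q0, q1]
      simp only [ix]
      ring)
  have e4 : lk TB5 1365 ((((((pk w 10) % 16) + ((((pk w 10) >>> 6) % 4) * 16)) + ((((pk w 10) >>> 10) % 4) * 64)) + ((((pk w 10) >>> 14) % 4) * 256)) + (((pk w 10) >>> 18) * 1024)) = gv TB5 w [0, 1, 3, 5, 7, 9] :=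
    lk_eq TB5 w hw 0 [1, 3, 5, 7, 9] 1365 _ rfl (by
      have q0 : ((pk w 10) % 16) = (w 0 + 4 * (w 1 + 4 * 0)) := pk_run w hw 10 0 2 8 rfl
      have q1 : (((pk w 10) >>> 6) % 4) = (w 3 + 4 * 0) := pk_run w hw 10 3 1 6 rfl
      have q2 : (((pk w 10) >>> 10) % 4) = (w 5 + 4 * 0) := pk_run w hw 10 5 1 4 rfl
      have q3 : (((pk w 10) >>> 14) % 4) = (w 7 + 4 * 0) := pk_run w hw 10 7 1 2 rfl
      have q4 : ((pk w 10) >>> 18) = (w 9 + 4 * 0) := pk_run' w hw 10 9 1 rfl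
      rw [q0, q1, q2, q3, q4]
      simp only [ix]
      ring)
  have e5 : lk TB6 341 (((((pk w 10) % 4) + ((((pk w 10) >>> 4) % 4) * 4)) + ((((pk w 10) >>> 10) % 4) * 16)) + (((pk w 10) >>> 16) * 64)) = gv TB6 w [0, 2, 5, 8, 9] :=
    lk_eq TB6 w hw 0 [2, 5, 8, 9] 341 _ rfl (by
      have q0 : ((pk w 10) % 4) = (w 0 + 4 * 0) := pk_run w hw 10 0 1 9 rfl
      have q1 : (((pk w 10) >>> 4) % 4) = (w 2 + 4 * 0) := pk_run w hw 10 2 1 7 rfl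
      have q2 : (((pk w 10) >>> 10) % 4) = (w 5 + 4 * 0) := pk_run w hw 10 5 1 4 rfl
      have q3 : ((pk w 10) >>> 16) = (w 8 + 4 * (w 9 + 4 * 0)) := pk_run' w hw 10 8 2 rfl
      rw [q0, q1, q2, q3]
      simp only [ix]
      ring)
  have e6 : lc TB7 341 ((((((pk w 10) % 4) + ((((pk w 10) >>> 6) % 4) * 4)) + ((((pk w 10) >>> 10) % 4) * 16)) + ((((pk w 10) >>> 14) % 4) * 64)) + (((pk w 10) >>> 18) * 256)) = 65535 - gv TB7 w [0, 3, 5, 7, 9] :=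
    lc_eq TB7 w hw 0 [3, 5, 7, 9] 341 _ rfl (by
      have q0 : ((pk w 10) % 4) = (w 0 + 4 * 0) := pk_run w hw 10 0 1 9 rfl
      have q1 : (((pk w 10) >>> 6) % 4) = (w 3 + 4 * 0) := pk_run w hw 10 3 1 6 rfl
      have q2 : (((pk w 10) >>> 10) % 4) = (w 5 + 4 * 0) := pk_run w hw 10 5 1 4 rfl
      have q3 : (((pk w 10) >>> 14) % 4) = (w 7 + 4 * 0) := pk_run w hw 10 7 1 2 rfl
      have q4 : ((pk w 10) >>> 18) = (w 9 + 4 * 0) := pk_run' w hw 10 9 1 rfl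
      rw [q0, q1, q2, q3, q4]
      simp only [ix]
      ring)
  have e7 : lc TB8 341 ((((pk w 10) >>> 8) % 4) + (((pk w 10) >>> 12) * 4)) = 65535 - gv TB8 w [4, 6, 7, 8, 9] :=
    lc_eq TB8 w hw 4 [6, 7, 8, 9] 341 _ rfl (by
      have q0 : (((pk w 10) >>> 8) % 4) = (w 4 + 4 * 0) := pk_run w hw 10 4 1 5 rfl
      have q1 : ((pk w 10) >>> 12) = (w 6 + 4 * (w 7 + 4 * (w 8 + 4 * (w 9 + 4 * 0)))) := pk_run' w hw 10 6 4 rfl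
      rw [q0, q1]
      simp only [ix]
      ring)
  have e8 : lk TB9 341 (((((pk w 10) % 4) + ((((pk w 10) >>> 4) % 4) * 4)) + ((((pk w 10) >>> 10) % 4) * 16)) + (((pk w 10) >>> 16) * 64)) = gv TB9 w [0, 2, 5, 8, 9] :=
    lk_eq TB9 w hw 0 [2, 5, 8, 9] 341 _ rfl (by
      have q0 : ((pk w 10) % 4) = (w 0 + 4 * 0) := pk_run w hw 10 0 1 9 rfl
      have q1 : (((pk w 10) >>> 4) % 4) = (w 2 + 4 * 0) := pk_run w hw 10 2 1 7 rfl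
      have q2 : (((pk w 10) >>> 10) % 4) = (w 5 + 4 * 0) := pk_run w hw 10 5 1 4 rfl
      have q3 : ((pk w 10) >>> 16) = (w 8 + 4 * (w 9 + 4 * 0)) := pk_run' w hw 10 8 2 rfl
      rw [q0, q1, q2, q3]
      simp only [ix]
      ring)
  have e9 : lc TB10 341 (((((pk w 10) % 4) + ((((pk w 10) >>> 4) % 4) * 4)) + ((((pk w 10) >>> 10) % 4) * 16)) + (((pk w 10) >>> 16) * 64)) = 65535 - gv TB10 w [0, 2, 5, 8, 9] :=
    lc_eq TB10 w hw 0 [2, 5, 8, 9] 341 _ rfl (by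
      have q0 : ((pk w 10) % 4) = (w 0 + 4 * 0) := pk_run w hw 10 0 1 9 rfl
      have q1 : (((pk w 10) >>> 4) % 4) = (w 2 + 4 * 0) := pk_run w hw 10 2 1 7 rfl
      have q2 : (((pk w 10) >>> 10) % 4) = (w 5 + 4 * 0) := pk_run w hw 10 5 1 4 rfl
      have q3 : ((pk w 10) >>> 16) = (w 8 + 4 * (w 9 + 4 * 0)) := pk_run' w hw 10 8 2 rfl
      rw [q0, q1, q2, q3]
      simp only [ix]
      ring)
  have e10 : lk TB11 21 (((((pk w 10) >>> 2) % 4) + ((((pk w 10) >>> 12) % 4) * 4)) + (((pk w 10) >>> 18) * 16)) = gv TB11 w [1, 6, 9] :=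
    lk_eq TB11 w hw 1 [6, 9] 21 _ rfl (by
      have q0 : (((pk w 10) >>> 2) % 4) = (w 1 + 4 * 0) := pk_run w hw 10 1 1 8 rfl
      have q1 : (((pk w 10) >>> 12) % 4) = (w 6 + 4 * 0) := pk_run w hw 10 6 1 3 rfl
      have q2 : ((pk w 10) >>> 18) = (w 9 + 4 * 0) := pk_run' w hw 10 9 1 rfl
      rw [q0, q1, q2]
      simp only [ix]
      ring)
  have e : inc9 (pk w 10) = (((((((((((3635164970785550901161 >>> (20 * ((pk w 10) >>> 18)) % 1048576 : ℕ) + lc TB1 5461 ((((pk w 10) >>> 4) % 4) + (((pk w 10) >>> 8) * 4))) + lk TB3 1365 ((((((pk w 10) % 16) + ((((pk w 10) >>> 6) % 4) * 16)) + ((((pk w 10) >>> 10) % 4) * 64)) + ((((pk w 10) >>> 14) % 4) * 256)) + (((pk w 10) >>> 18) * 1024))) + lc TB4 1365 ((((pk w 10) >>> 6) % 4) + (((pk w 10) >>> 10) * 4))) + lk TB5 1365 ((((((pk w 10) % 16) + ((((pk w 10) >>> 6) % 4) * 16)) + ((((pk w 10) >>>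 10) % 4) * 64)) + ((((pk w 10) >>> 14) % 4) * 256)) + (((pk w 10) >>> 18) * 1024))) + lk TB6 341 (((((pk w 10) % 4) + ((((pk w 10) >>> 4) % 4) * 4)) + ((((pk w 10) >>> 10) % 4) * 16)) + (((pk w 10) >>> 16) * 64))) + lc TB7 341 ((((((pk w 10) % 4) + ((((pk w 10) >>> 6) % 4) * 4)) + ((((pk w 10) >>> 10) % 4) * 16)) + ((((pk w 10) >>> 14) % 4) * 64)) + (((pk w 10) >>> 18) * 256))) + lc TB8 341 ((((pk w 10) >>> 8) % 4) + (((pk w 10) >>> 12) * 4))) + lk TB9 341 (((((pk w 10) % 4) + ((((pk w 10) >>> 4) % 4) * 4)) + ((((pk w 10) >>> 10) % 4) * 16)) + (((pk w 10) >>> 16) * 64))) + lc TB10 341 (((((pk w 10) % 4) + ((((pk w 10) >>> 4) % 4) * 4)) + ((((pk w 10) >>> 10) % 4) * 16)) + (((pk w 10) >>> 16) * 64))) + lk TB11 21 (((((pk w 10) >>> 2) % 4) + ((((pk w 10) >>> 12) % 4) * 4)) + (((pk w 10) >>> 18) * 16))) := rfl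
  rw [e]
  rw [e1, e2, e3, e4, e5, e6, e7, e8, e9, e10]
  have g1 := gv_lt TB1 w [2, 4, 5, 6, 7, 8, 9]
  have g3 := gv_lt TB4 w [3, 5, 6, 7, 8, 9]
  have g6 := gv_lt TB7 w [0, 3, 5, 7, 9]
  have g7 := gv_lt TB8 w [4, 6, 7, 8, 9]
  have g9 := gv_lt TB10 w [0, 2, 5, 8, 9]
  omega

theorem tot_eq (w : ℕ → ℕ) (hw : ∀ i, w i < 4) (h0 : w 0 = 0) :
    ((tot w levels 1 : ℕ) : ℤ) = cost w + 831984 := by
  have h1 := inc1_eq w hw h0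
  have h2 := inc2_eq w hw h0
  have h3 := inc3_eq w hw h0
  have h4 := inc4_eq w hw h0
  have h5 := inc5_eq w hw h0
  have h6 := inc6_eq w hw h0
  have h7 := inc7_eq w hw h0
  have h8 := inc8_eq w hw h0
  have h9 := inc9_eq w hw h0
  have e : tot w levels 1 = inc1 (pk w 2) + (inc2 (pk w 3) + (inc3 (pk w 4) + (inc4 (pk w 5) + (inc5 (pk w 6) + (inc6 (pk w 7) + (inc7 (pk w 8) + (inc8 (pk w 9) + (inc9 (pk w 10) + 0)))))))) := rfl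
  rw [e]
  unfold cost
  push_cast
  linarith

/-- admissible windows -/
structure Adm (w : ℕ → ℕ) : Prop where
  r0 : nb RT (ix w [1, 2, 3, 4]) = true
  r1 : nb RT (ix w [2, 3, 4, 5]) = true
  r2 : nb RT (ix w [3, 4, 5, 6]) = true
  r3 : nb RT (ix w [4, 5, 6, 7]) = true
  r4 : nb RT (ix w [5, 6, 7, 8]) = true
  r5 : nb RT (ix w [0, 1, 3, 5]) = true
  r6 : nb RT (ix w [1, 3, 5, 7]) = true
  r7 : nb RT (ix w [2, 4, 6, 8]) = true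
  r8 : nb RT (ix w [0, 2, 5, 8]) = true
  r9 : nb RT (ix w [2, 5, 8, 9]) = true
  r10 : nb RT (ix w [0, 3, 7, 9]) = true
  f0 : nb FT (ix w [1, 2, 3, 4, 5]) = true
  f1 : nb FT (ix w [2, 3, 4, 5, 6]) = true
  f2 : nb FT (ix w [3, 4, 5, 6, 7]) = true
  f3 : nb FT (ix w [4, 5, 6, 7, 8]) = true
  f4 : nb FT (ix w [0, 1, 3, 5, 7]) = true
  f5 : nb FT (ix w [0, 2, 5, 8, 9]) = true

theorem ok1_eq (w : ℕ → ℕ) (hw : ∀ i, w i < 4) (h : Adm w) : ok1 (pk w 2) = true := by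
  have _ := hw 0; have _ := h.r0; rfl

theorem ok2_eq (w : ℕ → ℕ) (hw : ∀ i, w i < 4) (h : Adm w) : ok2 (pk w 3) = true := by
  have _ := hw 0; have _ := h.r0; rfl

theorem ok3_eq (w : ℕ → ℕ) (hw : ∀ i, w i < 4) (h : Adm w) : ok3 (pk w 4) = true := by
  have _ := hw 0; have _ := h.r0; rfl

theorem ok4_eq (w : ℕ → ℕ) (hw : ∀ i, w i < 4) (h : Adm w) : ok4 (pk w 5) = true := by
  have b0 := hw 0
  have b1 := hw 1
  have b2 := hw 2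
  have b3 := hw 3
  have b4 := hw 4
  have e0 : ((pk w 5) >>> 2) = ix w [1, 2, 3, 4] := by
    have q0 : ((pk w 5) >>> 2) = (w 1 + 4 * (w 2 + 4 * (w 3 + 4 * (w 4 + 4 * 0)))) := pk_run' w hw 5 1 4 rfl
    rw [q0]
    simp only [ix]
  have c0 : nb RT ((pk w 5) >>> 2) = true := by
    rw [e0]; exact h.r0
  have e : ok4 (pk w 5) = (nb RT ((pk w 5) >>> 2)) := rfl
  rw [e, c0]

theorem ok5_eq (w : ℕ → ℕ) (hw : ∀ i, w i < 4) (h : Adm w) : ok5 (pk w 6) = true := by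
  have b0 := hw 0
  have b1 := hw 1
  have b2 := hw 2
  have b3 := hw 3
  have b4 := hw 4
  have b5 := hw 5
  have e0 : ((pk w 6) >>> 4) = ix w [2, 3, 4, 5] := by
    have q0 : ((pk w 6) >>> 4) = (w 2 + 4 * (w 3 + 4 * (w 4 + 4 * (w 5 + 4 * 0)))) := pk_run' w hw 6 2 4 rfl
    rw [q0]
    simp only [ix]
  have c0 : nb RT ((pk w 6) >>> 4) = true := by
    rw [e0]; exact h.r1
  have e1 : ((((pk w 6) % 16) + ((((pk w 6) >>> 6) % 4) * 16)) + (((pk w 6) >>> 10) * 64)) = ix w [0, 1, 3, 5] := by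
    have q0 : ((pk w 6) % 16) = (w 0 + 4 * (w 1 + 4 * 0)) := pk_run w hw 6 0 2 4 rfl
    have q1 : (((pk w 6) >>> 6) % 4) = (w 3 + 4 * 0) := pk_run w hw 6 3 1 2 rfl
    have q2 : ((pk w 6) >>> 10) = (w 5 + 4 * 0) := pk_run' w hw 6 5 1 rfl
    rw [q0, q1, q2]
    simp only [ix]
    ring
  have c1 : nb RT ((((pk w 6) % 16) + ((((pk w 6) >>> 6) % 4) * 16)) + (((pk w 6) >>> 10) * 64)) = true := by
    rw [e1]; exact h.r5
  have e2 : ((pk w 6) >>> 2) = ix w [1, 2, 3, 4, 5] := by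
    have q0 : ((pk w 6) >>> 2) = (w 1 + 4 * (w 2 + 4 * (w 3 + 4 * (w 4 + 4 * (w 5 + 4 * 0))))) := pk_run' w hw 6 1 5 rfl
    rw [q0]
    simp only [ix]
  have c2 : nb FT ((pk w 6) >>> 2) = true := by
    rw [e2]; exact h.f0
  have e : ok5 (pk w 6) = (nb RT ((pk w 6) >>> 4) && nb RT ((((pk w 6) % 16) + ((((pk w 6) >>> 6) % 4) * 16)) + (((pk w 6) >>> 10) * 64)) && nb FT ((pk w 6) >>> 2)) := rfl
  rw [e, c0, c1, c2]
  rfl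

theorem ok6_eq (w : ℕ → ℕ) (hw : ∀ i, w i < 4) (h : Adm w) : ok6 (pk w 7) = true := by
  have b0 := hw 0
  have b1 := hw 1
  have b2 := hw 2
  have b3 := hw 3
  have b4 := hw 4
  have b5 := hw 5
  have b6 := hw 6
  have e0 : ((pk w 7) >>> 6) = ix w [3, 4, 5, 6] := by
    have q0 : ((pk w 7) >>> 6) = (w 3 + 4 * (w 4 + 4 * (w 5 + 4 * (w 6 + 4 * 0)))) := pk_run' w hw 7 3 4 rfl
    rw [q0]
    simp only [ix]
  have c0 : nb RT ((pk w 7) >>> 6) = true := by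
    rw [e0]; exact h.r2
  have e1 : ((pk w 7) >>> 4) = ix w [2, 3, 4, 5, 6] := by
    have q0 : ((pk w 7) >>> 4) = (w 2 + 4 * (w 3 + 4 * (w 4 + 4 * (w 5 + 4 * (w 6 + 4 * 0))))) := pk_run' w hw 7 2 5 rfl
    rw [q0]
    simp only [ix]
  have c1 : nb FT ((pk w 7) >>> 4) = true := by
    rw [e1]; exact h.f1
  have e : ok6 (pk w 7) = (nb RT ((pk w 7) >>> 6) && nb FT ((pk w 7) >>> 4)) := rfl
  rw [e, c0, c1]
  rfl

theorem ok7_eq (w : ℕ → ℕ) (hw : ∀ i, w i < 4) (h : Adm w) : ok7 (pk w 8) = true := by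
  have b0 := hw 0
  have b1 := hw 1
  have b2 := hw 2
  have b3 := hw 3
  have b4 := hw 4
  have b5 := hw 5
  have b6 := hw 6
  have b7 := hw 7
  have e0 : ((pk w 8) >>> 8) = ix w [4, 5, 6, 7] := by
    have q0 : ((pk w 8) >>> 8) = (w 4 + 4 * (w 5 + 4 * (w 6 + 4 * (w 7 + 4 * 0)))) := pk_run' w hw 8 4 4 rfl
    rw [q0]
    simp only [ix]
  have c0 : nb RT ((pk w 8) >>> 8) = true := by
    rw [e0]; exact h.r3
  have e1 : ((((((pk w 8) >>> 2) % 4) + ((((pk w 8) >>> 6) % 4) * 4)) + ((((pk w 8) >>> 10) % 4) * 16)) + (((pk w 8) >>> 14) * 64)) = ix w [1, 3, 5, 7] := by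
    have q0 : (((pk w 8) >>> 2) % 4) = (w 1 + 4 * 0) := pk_run w hw 8 1 1 6 rfl
    have q1 : (((pk w 8) >>> 6) % 4) = (w 3 + 4 * 0) := pk_run w hw 8 3 1 4 rfl
    have q2 : (((pk w 8) >>> 10) % 4) = (w 5 + 4 * 0) := pk_run w hw 8 5 1 2 rfl
    have q3 : ((pk w 8) >>> 14) = (w 7 + 4 * 0) := pk_run' w hw 8 7 1 rfl
    rw [q0, q1, q2, q3]
    simp only [ix]
    ring
  have c1 : nb RT ((((((pk w 8) >>> 2) % 4) + ((((pk w 8) >>> 6) % 4) * 4)) + ((((pk w 8) >>> 10) % 4) * 16)) + (((pk w 8) >>> 14) * 64)) = true := by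
    rw [e1]; exact h.r6
  have e2 : ((pk w 8) >>> 6) = ix w [3, 4, 5, 6, 7] := by
    have q0 : ((pk w 8) >>> 6) = (w 3 + 4 * (w 4 + 4 * (w 5 + 4 * (w 6 + 4 * (w 7 + 4 * 0))))) := pk_run' w hw 8 3 5 rfl
    rw [q0]
    simp only [ix]
  have c2 : nb FT ((pk w 8) >>> 6) = true := by
    rw [e2]; exact h.f2
  have e3 : (((((pk w 8) % 16) + ((((pk w 8) >>> 6) % 4) * 16)) + ((((pk w 8) >>> 10) % 4) * 64)) + (((pk w 8) >>> 14) * 256)) = ix w [0, 1, 3, 5, 7] := by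
    have q0 : ((pk w 8) % 16) = (w 0 + 4 * (w 1 + 4 * 0)) := pk_run w hw 8 0 2 6 rfl
    have q1 : (((pk w 8) >>> 6) % 4) = (w 3 + 4 * 0) := pk_run w hw 8 3 1 4 rfl
    have q2 : (((pk w 8) >>> 10) % 4) = (w 5 + 4 * 0) := pk_run w hw 8 5 1 2 rfl
    have q3 : ((pk w 8) >>> 14) = (w 7 + 4 * 0) := pk_run' w hw 8 7 1 rfl
    rw [q0, q1, q2, q3]
    simp only [ix]
    ring
  have c3 : nb FT (((((pk w 8) % 16) + ((((pk w 8) >>> 6) % 4) * 16)) + ((((pk w 8) >>> 10) % 4) * 64)) + (((pk w 8) >>> 14) * 256)) = true := by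
    rw [e3]; exact h.f4
  have e : ok7 (pk w 8) = (nb RT ((pk w 8) >>> 8) && nb RT ((((((pk w 8) >>> 2) % 4) + ((((pk w 8) >>> 6) % 4) * 4)) + ((((pk w 8) >>> 10) % 4) * 16)) + (((pk w 8) >>> 14) * 64)) && nb FT ((pk w 8) >>> 6) && nb FT (((((pk w 8) % 16) + ((((pk w 8) >>> 6) % 4) * 16)) + ((((pk w 8) >>> 10) % 4) * 64)) + (((pk w 8) >>> 14) * 256))) := rfl
  rw [e, c0, c1, c2, c3]
  rfl

theorem ok8_eq (w : ℕ → ℕ) (hw : ∀ i, w i < 4) (h : Adm w) : ok8 (pk w 9) = true := by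
  have b0 := hw 0
  have b1 := hw 1
  have b2 := hw 2
  have b3 := hw 3
  have b4 := hw 4
  have b5 := hw 5
  have b6 := hw 6
  have b7 := hw 7
  have b8 := hw 8
  have e0 : ((pk w 9) >>> 10) = ix w [5, 6, 7, 8] := by
    have q0 : ((pk w 9) >>> 10) = (w 5 + 4 * (w 6 + 4 * (w 7 + 4 * (w 8 + 4 * 0)))) := pk_run' w hw 9 5 4 rfl
    rw [q0]
    simp only [ix]
  have c0 : nb RT ((pk w 9) >>> 10) = true := by
    rw [e0]; exact h.r4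
  have e1 : ((((((pk w 9) >>> 4) % 4) + ((((pk w 9) >>> 8) % 4) * 4)) + ((((pk w 9) >>> 12) % 4) * 16)) + (((pk w 9) >>> 16) * 64)) = ix w [2, 4, 6, 8] := by
    have q0 : (((pk w 9) >>> 4) % 4) = (w 2 + 4 * 0) := pk_run w hw 9 2 1 6 rfl
    have q1 : (((pk w 9) >>> 8) % 4) = (w 4 + 4 * 0) := pk_run w hw 9 4 1 4 rfl
    have q2 : (((pk w 9) >>> 12) % 4) = (w 6 + 4 * 0) := pk_run w hw 9 6 1 2 rfl
    have q3 : ((pk w 9) >>> 16) = (w 8 + 4 * 0) := pk_run' w hw 9 8 1 rfl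
    rw [q0, q1, q2, q3]
    simp only [ix]
    ring
  have c1 : nb RT ((((((pk w 9) >>> 4) % 4) + ((((pk w 9) >>> 8) % 4) * 4)) + ((((pk w 9) >>> 12) % 4) * 16)) + (((pk w 9) >>> 16) * 64)) = true := by
    rw [e1]; exact h.r7
  have e2 : (((((pk w 9) % 4) + ((((pk w 9) >>> 4) % 4) * 4)) + ((((pk w 9) >>> 10) % 4) * 16)) + (((pk w 9) >>> 16) * 64)) = ix w [0, 2, 5, 8] := by
    have q0 : ((pk w 9) % 4) = (w 0 + 4 * 0) := pk_run w hw 9 0 1 8 rfl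
    have q1 : (((pk w 9) >>> 4) % 4) = (w 2 + 4 * 0) := pk_run w hw 9 2 1 6 rfl
    have q2 : (((pk w 9) >>> 10) % 4) = (w 5 + 4 * 0) := pk_run w hw 9 5 1 3 rfl
    have q3 : ((pk w 9) >>> 16) = (w 8 + 4 * 0) := pk_run' w hw 9 8 1 rfl
    rw [q0, q1, q2, q3]
    simp only [ix]
    ring
  have c2 : nb RT (((((pk w 9) % 4) + ((((pk w 9) >>> 4) % 4) * 4)) + ((((pk w 9) >>> 10) % 4) * 16)) + (((pk w 9) >>> 16) * 64)) = true := by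
    rw [e2]; exact h.r8
  have e3 : ((pk w 9) >>> 8) = ix w [4, 5, 6, 7, 8] := by
    have q0 : ((pk w 9) >>> 8) = (w 4 + 4 * (w 5 + 4 * (w 6 + 4 * (w 7 + 4 * (w 8 + 4 * 0))))) := pk_run' w hw 9 4 5 rfl
    rw [q0]
    simp only [ix]
  have c3 : nb FT ((pk w 9) >>> 8) = true := by
    rw [e3]; exact h.f3
  have e : ok8 (pk w 9) = (nb RT ((pk w 9) >>> 10) && nb RT ((((((pk w 9) >>> 4) % 4) + ((((pk w 9) >>> 8) % 4) * 4)) + ((((pk w 9) >>> 12) % 4) * 16)) + (((pk w 9) >>> 16) * 64)) && nb RT (((((pk w 9) % 4) + ((((pk w 9) >>> 4) % 4) * 4)) + ((((pk w 9) >>> 10) % 4) * 16)) + (((pk w 9) >>> 16) * 64)) && nb FT ((pk w 9) >>> 8)) := rfl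
  rw [e, c0, c1, c2, c3]
  rfl

theorem ok9_eq (w : ℕ → ℕ) (hw : ∀ i, w i < 4) (h : Adm w) : ok9 (pk w 10) = true := by
  have b0 := hw 0
  have b1 := hw 1
  have b2 := hw 2
  have b3 := hw 3
  have b4 := hw 4
  have b5 := hw 5
  have b6 := hw 6
  have b7 := hw 7
  have b8 := hw 8
  have b9 := hw 9
  have e0 : (((((pk w 10) >>> 4) % 4) + ((((pk w 10) >>> 10) % 4) * 4)) + (((pk w 10) >>> 16) * 16)) = ix w [2, 5, 8, 9] := by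
    have q0 : (((pk w 10) >>> 4) % 4) = (w 2 + 4 * 0) := pk_run w hw 10 2 1 7 rfl
    have q1 : (((pk w 10) >>> 10) % 4) = (w 5 + 4 * 0) := pk_run w hw 10 5 1 4 rfl
    have q2 : ((pk w 10) >>> 16) = (w 8 + 4 * (w 9 + 4 * 0)) := pk_run' w hw 10 8 2 rfl
    rw [q0, q1, q2]
    simp only [ix]
    ring
  have c0 : nb RT (((((pk w 10) >>> 4) % 4) + ((((pk w 10) >>> 10) % 4) * 4)) + (((pk w 10) >>> 16) * 16)) = true := by
    rw [e0]; exact h.r9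
  have e1 : (((((pk w 10) % 4) + ((((pk w 10) >>> 6) % 4) * 4)) + ((((pk w 10) >>> 14) % 4) * 16)) + (((pk w 10) >>> 18) * 64)) = ix w [0, 3, 7, 9] := by
    have q0 : ((pk w 10) % 4) = (w 0 + 4 * 0) := pk_run w hw 10 0 1 9 rfl
    have q1 : (((pk w 10) >>> 6) % 4) = (w 3 + 4 * 0) := pk_run w hw 10 3 1 6 rfl
    have q2 : (((pk w 10) >>> 14) % 4) = (w 7 + 4 * 0) := pk_run w hw 10 7 1 2 rfl
    have q3 : ((pk w 10) >>> 18) = (w 9 + 4 * 0) := pk_run' w hw 10 9 1 rfl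
    rw [q0, q1, q2, q3]
    simp only [ix]
    ring
  have c1 : nb RT (((((pk w 10) % 4) + ((((pk w 10) >>> 6) % 4) * 4)) + ((((pk w 10) >>> 14) % 4) * 16)) + (((pk w 10) >>> 18) * 64)) = true := by
    rw [e1]; exact h.r10
  have e2 : (((((pk w 10) % 4) + ((((pk w 10) >>> 4) % 4) * 4)) + ((((pk w 10) >>> 10) % 4) * 16)) + (((pk w 10) >>> 16) * 64)) = ix w [0, 2, 5, 8, 9] := by
    have q0 : ((pk w 10) % 4) = (w 0 + 4 * 0) := pk_run w hw 10 0 1 9 rfl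
    have q1 : (((pk w 10) >>> 4) % 4) = (w 2 + 4 * 0) := pk_run w hw 10 2 1 7 rfl
    have q2 : (((pk w 10) >>> 10) % 4) = (w 5 + 4 * 0) := pk_run w hw 10 5 1 4 rfl
    have q3 : ((pk w 10) >>> 16) = (w 8 + 4 * (w 9 + 4 * 0)) := pk_run' w hw 10 8 2 rfl
    rw [q0, q1, q2, q3]
    simp only [ix]
    ring
  have c2 : nb FT (((((pk w 10) % 4) + ((((pk w 10) >>> 4) % 4) * 4)) + ((((pk w 10) >>> 10) % 4) * 16)) + (((pk w 10) >>> 16) * 64)) = true := by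
    rw [e2]; exact h.f5
  have e : ok9 (pk w 10) = (nb RT (((((pk w 10) >>> 4) % 4) + ((((pk w 10) >>> 10) % 4) * 4)) + (((pk w 10) >>> 16) * 16)) && nb RT (((((pk w 10) % 4) + ((((pk w 10) >>> 6) % 4) * 4)) + ((((pk w 10) >>> 14) % 4) * 16)) + (((pk w 10) >>> 18) * 64)) && nb FT (((((pk w 10) % 4) + ((((pk w 10) >>> 4) % 4) * 4)) + ((((pk w 10) >>> 10) % 4) * 16)) + (((pk w 10) >>> 16) * 64))) := rfl
  rw [e, c0, c1, c2]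
  rfl

theorem aok_of_adm (w : ℕ → ℕ) (hw : ∀ i, w i < 4) (h : Adm w) : aok w levels 1 :=
  ⟨ok1_eq w hw h, ok2_eq w hw h, ok3_eq w hw h, ok4_eq w hw h, ok5_eq w hw h, ok6_eq w hw h, ok7_eq w hw h, ok8_eq w hw h, ok9_eq w hw h, trivial⟩

end RBX
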