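import Pool.Agent.RBX.Conv

namespace RBX
open Finset

variable {p : ℕ} [Fact p.Prime]

theorem shift_ncard_le (S : Set (ZMod p)) (k : ZMod p) :
    {q : ZMod p × ZMod p | q.1 + k * q.2 ∈ S}.ncard ≤ S.ncard * p := by
  have h1 : (S ×ˢ (Set.univ : Set (ZMod p))).ncard = S.ncard * p := by
    rw [Set.ncard_prod, Set.ncard_univ, Nat.card_zmod]
  rw [← h1]
  refine Set.ncard_le_ncard_of_injOn (fun q : ZMod p × ZMod p => (q.1 + k * q.2, q.2)) ?_ ?_ (Set.toFinite _)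
  · intro q hq
    exact ⟨hq, Set.mem_univ _⟩
  · intro q _ q' _ h
    simp only [Prod.mk.injEq] at h
    obtain ⟨h1, h2⟩ := h
    rw [h2] at h1
    exact Prod.ext (add_right_cancel h1) h2

theorem isc_le (H I : Set (ZMod p)) (hI : ∀ x d, ¬ Iso I x d) :
    isc H ≤ 5 * ((symmDiff H I).ncard * p) := by
  have hsub : {q : ZMod p × ZMod p | q.2 ≠ 0 ∧ Iso H q.1 q.2} ⊆
      {q | q.1 + 0 * q.2 ∈ symmDiff H I} ∪ ({q | q.1 + 1 * q.2 ∈ symmDiff H I} ∪
      ({q | q.1 + 2 * q.2 ∈ symmDiff H I} ∪ ({q | q.1 + 3 * q.2 ∈ symmDiff H I} ∪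
      {q | q.1 + 4 * q.2 ∈ symmDiff H I}))) := by
    rintro ⟨x, d⟩ ⟨_, h⟩
    by_contra hc
    simp only [Set.mem_union, Set.mem_ofPred_eq, Set.mem_symmDiff, not_or, not_and, not_not,
      zero_mul, add_zero, one_mul] at hc
    apply hI x d
    obtain ⟨⟨a0, b0⟩, ⟨a1, b1⟩, ⟨a2, b2⟩, ⟨a3, b3⟩, ⟨a4, b4⟩⟩ := hc
    have c0 : x ∈ H ↔ x ∈ I := ⟨a0, b0⟩
    have c1 : x + d ∈ H ↔ x + d ∈ I := ⟨a1, b1⟩
    have c2 : x + 2 * d ∈ H ↔ x + 2 * d ∈ I := ⟨a2, b2⟩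
    have c3 : x + 3 * d ∈ H ↔ x + 3 * d ∈ I := ⟨a3, b3⟩
    have c4 : x + 4 * d ∈ H ↔ x + 4 * d ∈ I := ⟨a4, b4⟩
    simp only [Iso, c0, c1, c2, c3, c4] at h
    exact h
  have h0 := shift_ncard_le (symmDiff H I) 0
  have h1 := shift_ncard_le (symmDiff H I) 1
  have h2 := shift_ncard_le (symmDiff H I) 2
  have h3 := shift_ncard_le (symmDiff H I) 3
  have h4 := shift_ncard_le (symmDiff H I) 4
  have g := Set.ncard_le_ncard hsub (Set.toFinite _)
  have u1 := Set.ncard_union_le {q : ZMod p × ZMod p | q.1 + 0 * q.2 ∈ symmDiff H I}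
    ({q | q.1 + 1 * q.2 ∈ symmDiff H I} ∪
      ({q | q.1 + 2 * q.2 ∈ symmDiff H I} ∪ ({q | q.1 + 3 * q.2 ∈ symmDiff H I} ∪
      {q | q.1 + 4 * q.2 ∈ symmDiff H I})))
  have u2 := Set.ncard_union_le {q : ZMod p × ZMod p | q.1 + 1 * q.2 ∈ symmDiff H I}
    ({q | q.1 + 2 * q.2 ∈ symmDiff H I} ∪ ({q | q.1 + 3 * q.2 ∈ symmDiff H I} ∪
      {q | q.1 + 4 * q.2 ∈ symmDiff H I}))
  have u3 := Set.ncard_union_le {q : ZMod p × ZMod p | q.1 + 2 * q.2 ∈ symmDiff H I}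
    ({q | q.1 + 3 * q.2 ∈ symmDiff H I} ∪ {q | q.1 + 4 * q.2 ∈ symmDiff H I})
  have u4 := Set.ncard_union_le {q : ZMod p × ZMod p | q.1 + 3 * q.2 ∈ symmDiff H I}
    {q | q.1 + 4 * q.2 ∈ symmDiff H I}
  unfold isc
  omega

theorem apSet_ncard (a q : ZMod p) (m : ℕ) (hq : q ≠ 0) (hm : m ≤ p) : (apSet a q m).ncard = m := by
  have e : apSet a q m = (fun t : ℕ => a + (t : ZMod p) * q) '' (↑(Finset.range m) : Set ℕ) := by
    ext x
    simp only [apSet, Set.mem_ofPred_eq, Set.mem_image, Finset.coe_range, Set.mem_Iio]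
    constructor
    · rintro ⟨t, ht, rfl⟩; exact ⟨t, ht, rfl⟩
    · rintro ⟨t, ht, rfl⟩; exact ⟨t, ht, rfl⟩
  rw [e, Set.ncard_image_of_injOn, Set.ncard_coe_finset, Finset.card_range]
  intro s hs t ht h
  simp only [Finset.coe_range, Set.mem_Iio] at hs ht
  have h2 : (s : ZMod p) = t := mul_right_cancel₀ hq (add_left_cancel h)
  have h3 := congrArg ZMod.val h2
  rwa [ZMod.val_cast_of_lt (by omega), ZMod.val_cast_of_lt (by omega)] at h3

theorem apSet_mono (a q : ZMod p) {m m' : ℕ} (h : m ≤ m') : apSet a q m ⊆ apSet a q m' := by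
  rintro x ⟨t, ht, rfl⟩
  exact ⟨t, by omega, rfl⟩

theorem apSet_trunc (a q : ZMod p) (m : ℕ) (hq : q ≠ 0) : ∃ m', m' ≤ p ∧ apSet a q m' = apSet a q m := by
  by_cases h : m ≤ p
  · exact ⟨m, h, rfl⟩
  · refine ⟨p, le_rfl, ?_⟩
    apply Set.Subset.antisymm (apSet_mono a q (by omega))
    intro x _
    rw [mem_apSet a q p hq le_rfl]
    exact ZMod.val_lt _

theorem apSet_symmDiff (a q : ZMod p) (m m' : ℕ) (hq : q ≠ 0) (hm : m ≤ p) (hm' : m' ≤ p) :
    (symmDiff (apSet a q m) (apSet a q m')).ncard ≤ (m - m') + (m' - m) := by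
  have h1 := apSet_ncard a q m hq hm
  have h2 := apSet_ncard a q m' hq hm'
  rcases le_total m m' with h | h
  · rw [symmDiff_of_le (apSet_mono a q h)]
    have := Set.ncard_diff (apSet_mono a q h) (Set.toFinite _)
    rw [this, h1, h2]; omega
  · rw [symmDiff_of_ge (apSet_mono a q h)]
    have := Set.ncard_diff (apSet_mono a q h) (Set.toFinite _)
    rw [this, h1, h2]; omega

theorem ncard_diff_le (H I : Set (ZMod p)) :
    H.ncard ≤ I.ncard + (symmDiff H I).ncard ∧ I.ncard ≤ H.ncard + (symmDiff H I).ncard := by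
  constructor
  · refine (Set.ncard_le_ncard (t := I ∪ symmDiff H I) ?_ (Set.toFinite _)).trans (Set.ncard_union_le _ _)
    intro x hx
    by_cases hI : x ∈ I
    · exact Or.inl hI
    · exact Or.inr ((Set.mem_symmDiff).2 (Or.inl ⟨hx, hI⟩))
  · refine (Set.ncard_le_ncard (t := H ∪ symmDiff H I) ?_ (Set.toFinite _)).trans (Set.ncard_union_le _ _)
    intro x hx
    by_cases hI : x ∈ H
    · exact Or.inl hI
    · exact Or.inr ((Set.mem_symmDiff).2 (Or.inr ⟨hx, hI⟩))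

theorem pair_ncard (c : ZMod p → Fin 4) : ({x | c x = 0 ∨ c x = 1} : Set (ZMod p)).ncard = csz c 0 + csz c 1 := by
  have e : ({x | c x = 0 ∨ c x = 1} : Set (ZMod p)) = {x | c x = 0} ∪ {x | c x = 1} := by
    ext x; simp
  rw [e, Set.ncard_union_eq _ (Set.toFinite _) (Set.toFinite _)]
  · rfl
  · rw [Set.disjoint_left]
    intro x hx hy
    simp only [Set.mem_ofPred_eq] at hx hy
    rw [hx] at hy
    exact absurd hy (by decide)

theorem symm_tri (A B C : Set (ZMod p)) :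
    (symmDiff A C).ncard ≤ (symmDiff A B).ncard + (symmDiff B C).ncard :=
  (Set.ncard_le_ncard (symmDiff_triangle A B C) (Set.toFinite _)).trans (Set.ncard_union_le _ _)

theorem hE_aux (E u P : ℤ) (hu : 1000000 * u ≤ 3 * P + 1000000) (hE : E ≤ 5 * (u * P)) (hP : 0 ≤ P) :
    1000000 * E ≤ 15 * P ^ 2 + 5000000 * P := by
  have h1 := mul_le_mul_of_nonneg_left hu hP
  nlinarith

theorem z_aux (y P : ℤ) (h1 : 10 * |y| ≤ P + 30) :
    100 * y ^ 2 ≤ (P + 30) ^ 2 := by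
  have h3 : (10 * |y|) ^ 2 ≤ (P + 30) ^ 2 := by
    apply sq_le_sq'
    · have := abs_nonneg y
      linarith
    · exact h1
  rw [mul_pow, sq_abs] at h3
  norm_num at h3
  exact h3

theorem abs_big (x y : ℤ) (h1 : 1000000 * |x| ≤ y) :
    1000000 * x ≤ y ∧ -y ≤ 1000000 * x := by
  have h2 := le_abs_self x
  have h3 := neg_abs_le x
  constructor <;> linarith

/-- the theorem for the pair of colours `0`, `1` -/
theorem near01 (hp : 11 ≤ p) (c : ZMod p → Fin 4)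
    (hc : ∀ i, 10 * |4 * (csz c i : ℤ) - p| ≤ p + 30)
    (h2 : 1000000 * |2 * ((({x | c x = 0 ∨ c x = 1} : Set (ZMod p)).ncard : ℕ) : ℤ) - p| ≤ 1000000 + 2 * p)
    (a q : ZMod p) (m : ℕ) (hq : q ≠ 0)
    (hI : 1000000 * (symmDiff {x | c x = 0 ∨ c x = 1} (apSet a q m)).ncard ≤ p) :
    p ^ 2 ≤ 160000 * rbc c := by
  have hmain := main01 hp c
  have hpr : p.Prime := Fact.out
  have hodd : p % 2 = 1 := by
    rcases hpr.eq_two_or_odd with h | h
    · omega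
    · exact h
  obtain ⟨m', hm', he⟩ := apSet_trunc a q m hq
  rw [← he] at hI
  have hcard := apSet_ncard a q m' hq hm'
  obtain ⟨d1, d2⟩ := ncard_diff_le {x | c x = 0 ∨ c x = 1} (apSet a q m')
  rw [hcard] at d1 d2
  obtain ⟨s, hs⟩ : ∃ s, s = (symmDiff {x | c x = 0 ∨ c x = 1} (apSet a q m')).ncard := ⟨_, rfl⟩
  obtain ⟨h, hh⟩ : ∃ h, h = ({x | c x = 0 ∨ c x = 1} : Set (ZMod p)).ncard := ⟨_, rfl⟩
  rw [← hs] at hI
  rw [← hs, ← hh] at d1 d2
  rw [← hh] at h2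
  have z0 := z_aux _ _ (hc 0)
  have z1 := z_aux _ _ (hc 1)
  have z2 := z_aux _ _ (hc 2)
  have z3 := z_aux _ _ (hc 3)
  have b2 := abs_big _ _ h2
  have hr : (0 : ℤ) ≤ (rbc c : ℤ) := by positivity
  have hp' : (11 : ℤ) ≤ p := by exact_mod_cast hp
  rcases lt_or_ge p 500000 with hlt | hge
  · -- exact case
    have hs0 : s = 0 := by omega
    have hmm : p = 2 * m' + 1 ∨ p + 1 = 2 * m' := by omega
    have hE : isc {x | c x = 0 ∨ c x = 1} = 0 := by
      have hb := isc_le {x | c x = 0 ∨ c x = 1} (apSet a q m')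
        (arc_no_iso a q m' hq hmm)
      rw [← hs, hs0] at hb
      omega
    rw [hE] at hmain
    have : (p : ℤ) ^ 2 ≤ 160000 * (rbc c : ℤ) := by
      push_cast at hmain
      nlinarith
    exact_mod_cast this
  · obtain ⟨m0, hm0⟩ : ∃ m0, p = 2 * m0 + 1 := ⟨p / 2, by omega⟩
    have e1 := apSet_symmDiff a q m' m0 hq hm' (by omega)
    have e2 := symm_tri {x | c x = 0 ∨ c x = 1} (apSet a q m') (apSet a q m0)
    rw [← hs] at e2
    have hb := isc_le {x | c x = 0 ∨ c x = 1} (apSet a q m0)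
        (arc_no_iso a q m0 hq (Or.inl hm0))
    obtain ⟨u, hu⟩ : ∃ u, u = (symmDiff {x | c x = 0 ∨ c x = 1} (apSet a q m0)).ncard := ⟨_, rfl⟩
    rw [← hu] at hb e2
    have hu2 : 1000000 * u ≤ 3 * p + 1000000 := by omega
    have hp'' : (500000 : ℤ) ≤ p := by exact_mod_cast hge
    have hbz : (isc {x | c x = 0 ∨ c x = 1} : ℤ) ≤ 5 * (u * p) := by exact_mod_cast hb
    have huz : 1000000 * (u : ℤ) ≤ 3 * p + 1000000 := by exact_mod_cast hu2
    have hE := hE_aux _ _ _ huz hbz (by omega)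
    have hpp : 500000 * (p : ℤ) ≤ (p : ℤ) ^ 2 := by nlinarith
    have : (p : ℤ) ^ 2 ≤ 160000 * (rbc c : ℤ) := by
      nlinarith
    exact_mod_cast this

end RBX
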