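import Pool.Agent.RBX.Tb

namespace RBX

set_option maxRecDepth 100000 in
/-- the kernel check of the certificate -/
theorem chk : dfs thr levels 4 0 0 = true := by decide +kernel

end RBX
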