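import Pool.Agent.RBX.Win
import Pool.Agent.RBX.Av

namespace RBX
open Finset

/-- the offsets of the window -/
def Sf (i : ℕ) : ℕ := [0, 2, 3, 4, 5, 6, 7, 8, 9, 12].getD i 0

/-- packed value of a list of digits -/
def ixl : List ℕ → ℕ
  | [] => 0
  | a :: l => a + 4 * ixl l

/-- table lookup for a list of digits -/
def gvl (tb : ℕ) : List ℕ → ℕ
  | [] => 0
  | a :: l => (tb >>> (16 * ixl (l.map fun b => b ^^^ a))) % 65536

theorem ix_eq (w : ℕ → ℕ) (T : List ℕ) : ix w T = ixl (T.map w) := by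
  induction T with
  | nil => rfl
  | cons t T ih => simp only [ix, ixl, List.map_cons, ih]

theorem gv_eq (tb : ℕ) (w : ℕ → ℕ) (T : List ℕ) : gv tb w T = gvl tb (T.map w) := by
  cases T with
  | nil => rfl
  | cons t T => simp only [gv, gvl, List.map_cons, ix_eq, List.map_map]; rfl

variable {p : ℕ} [Fact p.Prime]

/-- the window at `(x, d)` -/
def win (c : ZMod p → ℕ) (x d : ZMod p) (i : ℕ) : ℕ := c (x + (Sf i : ZMod p) * d)

theorem map_win (c : ZMod p → ℕ) (x d : ZMod p) (T : List ℕ) :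
    T.map (win c x d) = vals c x d (T.map Sf) := by
  simp only [vals, List.map_map]; rfl

theorem gv_win (tb : ℕ) (c : ZMod p → ℕ) (x d : ZMod p) (T : List ℕ) :
    gv tb (win c x d) T = gvl tb (vals c x d (T.map Sf)) := by
  rw [gv_eq, map_win]

theorem ix_win (c : ZMod p → ℕ) (x d : ZMod p) (T : List ℕ) :
    ix (win c x d) T = ixl (vals c x d (T.map Sf)) := by
  rw [ix_eq, map_win]

theorem nz (hp : 11 ≤ p) (k : ℕ) (h0 : 0 < k) (hk : k ≤ 12 ∧ k ≠ 11) : (k : ZMod p) ≠ 0 := by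
  have hpr : p.Prime := Fact.out
  rw [Ne, ZMod.natCast_eq_zero_iff]
  intro h
  have h1 := Nat.le_of_dvd h0 h
  rcases (by omega : p = 11 ∨ p = 12) with e | e
  · rw [e] at h
    omega
  · rw [e] at hpr
    revert hpr; norm_num

/-- number of pairs `(x, d)`, `d ≠ 0`, for which `x, x + d, x + 2d, x + 3d` is rainbow -/
def R4 (c : ZMod p → ℕ) : ℤ :=
  sm fun x d => if nb RT (ixl (vals c x d [0, 1, 2, 3])) = false then 1 else 0

/-- number of pairs `(x, d)`, `d ≠ 0`, for which the 5-term progression has a bad side pattern -/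
def E5 (c : ZMod p → ℕ) : ℤ :=
  sm fun x d => if nb FT (ixl (vals c x d [0, 1, 2, 3, 4])) = false then 1 else 0

/-- number of equally coloured pairs of distinct points -/
def Pc {β : Type*} [DecidableEq β] (φ : ZMod p → β) : ℤ :=
  ∑ x : ZMod p, ∑ y : ZMod p, (if φ x = φ y then (1 : ℤ) else 0) - p

theorem sm_pr (c : ZMod p → ℕ) (l k : ℤ) (j : ℕ) (hj : (Sf j : ZMod p) ≠ 0) :
    sm (fun x d => pr (win c x d) l k j) = l * Pc c + k * Pc (fun x => c x / 2) := by
  have e : ∀ x d : ZMod p, pr (win c x d) l k j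
      = l * (if c x = c (x + (Sf j : ZMod p) * d) then (1 : ℤ) else 0)
        + k * (if c x / 2 = c (x + (Sf j : ZMod p) * d) / 2 then (1 : ℤ) else 0) := by
    intro x d
    have h0 : win c x d 0 = c x := by
      simp [win, Sf]
    have e1 : pr (win c x d) l k j = (if win c x d 0 = win c x d j then l else 0)
        + (if win c x d 0 / 2 = win c x d j / 2 then k else 0) := rfl
    have e2 : win c x d j = c (x + (Sf j : ZMod p) * d) := rfl
    rw [e1, h0, e2, mul_ite, mul_ite, mul_one, mul_one, mul_zero, mul_zero]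
  simp only [e]
  rw [sm_add, sm_mul, sm_mul, sm_pair c _ hj, sm_pair (fun x => c x / 2) _ hj]
  rfl

theorem map0 (hp : 11 ≤ p) (c : ZMod p → ℕ) :
    sm (fun x d => (gv TB0 (win c x d) [0, 1, 2, 3, 4, 5, 6] : ℤ) - gv TB0 (win c x d) [1, 3, 4, 5, 6, 7, 8]) = 0 := by
  have h := sm_affine c (fun l => (gvl TB0 l : ℤ)) 1 1 2 0 ([1, 3, 4, 5, 6, 7, 8].map Sf) ([0, 1, 2, 3, 4, 5, 6].map Sf)
    (by simp [Sf]) (nz hp 1 (by norm_num) (by norm_num)) (nz hp 1 (by norm_num) (by norm_num))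
  simp only [gv_win, sm_sub]
  rw [← h, sub_self]

theorem map1 (hp : 11 ≤ p) (c : ZMod p → ℕ) :
    sm (fun x d => (gv TB1 (win c x d) [0, 1, 2, 3, 4, 5, 8] : ℤ) - gv TB1 (win c x d) [2, 4, 5, 6, 7, 8, 9]) = 0 := by
  have h := sm_affine c (fun l => (gvl TB1 l : ℤ)) 1 1 3 0 ([2, 4, 5, 6, 7, 8, 9].map Sf) ([0, 1, 2, 3, 4, 5, 8].map Sf)
    (by simp [Sf]) (nz hp 1 (by norm_num) (by norm_num)) (nz hp 1 (by norm_num) (by norm_num))
  simp only [gv_win, sm_sub]
  rw [← h, sub_self]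

theorem map2 (hp : 11 ≤ p) (c : ZMod p → ℕ) :
    sm (fun x d => (gv TB2 (win c x d) [1, 2, 3, 4, 5, 6, 7] : ℤ) - gv TB2 (win c x d) [2, 3, 4, 5, 6, 7, 8]) = 0 := by
  have h := sm_affine c (fun l => (gvl TB2 l : ℤ)) 1 1 1 0 ([2, 3, 4, 5, 6, 7, 8].map Sf) ([1, 2, 3, 4, 5, 6, 7].map Sf)
    (by simp [Sf]) (nz hp 1 (by norm_num) (by norm_num)) (nz hp 1 (by norm_num) (by norm_num))
  simp only [gv_win, sm_sub]
  rw [← h, sub_self]

theorem map3 (hp : 11 ≤ p) (c : ZMod p → ℕ) :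
    sm (fun x d => (gv TB3 (win c x d) [0, 1, 3, 5, 7, 9] : ℤ) - gv TB3 (win c x d) [2, 3, 4, 5, 6, 8]) = 0 := by
  have h := sm_affine c (fun l => (gvl TB3 l : ℤ)) 2 1 6 0 ([2, 3, 4, 5, 6, 8].map Sf) ([0, 1, 3, 5, 7, 9].map Sf)
    (by simp [Sf]) (nz hp 2 (by norm_num) (by norm_num)) (nz hp 1 (by norm_num) (by norm_num))
  simp only [gv_win, sm_sub]
  rw [← h, sub_self]

theorem map4 (hp : 11 ≤ p) (c : ZMod p → ℕ) :
    sm (fun x d => (gv TB4 (win c x d) [0, 1, 2, 3, 4, 7] : ℤ) - gv TB4 (win c x d) [3, 5, 6, 7, 8, 9]) = 0 := by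
  have h := sm_affine c (fun l => (gvl TB4 l : ℤ)) 1 1 4 0 ([3, 5, 6, 7, 8, 9].map Sf) ([0, 1, 2, 3, 4, 7].map Sf)
    (by simp [Sf]) (nz hp 1 (by norm_num) (by norm_num)) (nz hp 1 (by norm_num) (by norm_num))
  simp only [gv_win, sm_sub]
  rw [← h, sub_self]

theorem map5 (hp : 11 ≤ p) (c : ZMod p → ℕ) :
    sm (fun x d => (gv TB5 (win c x d) [0, 1, 3, 5, 7, 9] : ℤ) - gv TB5 (win c x d) [1, 2, 3, 4, 5, 7]) = 0 := by
  have h := sm_affine c (fun l => (gvl TB5 l : ℤ)) 2 1 4 0 ([1, 2, 3, 4, 5, 7].map Sf) ([0, 1, 3, 5, 7, 9].map Sf)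
    (by simp [Sf]) (nz hp 2 (by norm_num) (by norm_num)) (nz hp 1 (by norm_num) (by norm_num))
  simp only [gv_win, sm_sub]
  rw [← h, sub_self]

theorem map6 (hp : 11 ≤ p) (c : ZMod p → ℕ) :
    sm (fun x d => (gv TB6 (win c x d) [0, 2, 5, 8, 9] : ℤ) - gv TB6 (win c x d) [2, 3, 4, 5, 6]) = 0 := by
  have h := sm_affine c (fun l => (gvl TB6 l : ℤ)) 3 1 9 0 ([2, 3, 4, 5, 6].map Sf) ([0, 2, 5, 8, 9].map Sf)
    (by simp [Sf]) (nz hp 3 (by norm_num) (by norm_num)) (nz hp 1 (by norm_num) (by norm_num))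
  simp only [gv_win, sm_sub]
  rw [← h, sub_self]

theorem map7 (hp : 11 ≤ p) (c : ZMod p → ℕ) :
    sm (fun x d => (gv TB7 (win c x d) [0, 1, 2, 3, 5] : ℤ) - gv TB7 (win c x d) [0, 3, 5, 7, 9]) = 0 := by
  have h := sm_affine c (fun l => (gvl TB7 l : ℤ)) 1 2 0 0 ([0, 3, 5, 7, 9].map Sf) ([0, 1, 2, 3, 5].map Sf)
    (by simp [Sf]) (nz hp 1 (by norm_num) (by norm_num)) (nz hp 2 (by norm_num) (by norm_num))
  simp only [gv_win, sm_sub]
  rw [← h, sub_self]

theorem map8 (hp : 11 ≤ p) (c : ZMod p → ℕ) :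
    sm (fun x d => (gv TB8 (win c x d) [0, 1, 2, 3, 6] : ℤ) - gv TB8 (win c x d) [4, 6, 7, 8, 9]) = 0 := by
  have h := sm_affine c (fun l => (gvl TB8 l : ℤ)) 1 1 5 0 ([4, 6, 7, 8, 9].map Sf) ([0, 1, 2, 3, 6].map Sf)
    (by simp [Sf]) (nz hp 1 (by norm_num) (by norm_num)) (nz hp 1 (by norm_num) (by norm_num))
  simp only [gv_win, sm_sub]
  rw [← h, sub_self]

theorem map9 (hp : 11 ≤ p) (c : ZMod p → ℕ) :
    sm (fun x d => (gv TB9 (win c x d) [0, 2, 5, 8, 9] : ℤ) - gv TB9 (win c x d) [4, 5, 6, 7, 8]) = 0 := by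
  have h := sm_affine c (fun l => (gvl TB9 l : ℤ)) 3 1 15 0 ([4, 5, 6, 7, 8].map Sf) ([0, 2, 5, 8, 9].map Sf)
    (by simp [Sf]) (nz hp 3 (by norm_num) (by norm_num)) (nz hp 1 (by norm_num) (by norm_num))
  simp only [gv_win, sm_sub]
  rw [← h, sub_self]

theorem map10 (hp : 11 ≤ p) (c : ZMod p → ℕ) :
    sm (fun x d => (gv TB10 (win c x d) [0, 1, 3, 5, 7] : ℤ) - gv TB10 (win c x d) [0, 2, 5, 8, 9]) = 0 := by
  have h := sm_affine c (fun l => (gvl TB10 l : ℤ)) 2 3 0 0 ([0, 2, 5, 8, 9].map Sf) ([0, 1, 3, 5, 7].map Sf)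
    (by simp [Sf]) (nz hp 2 (by norm_num) (by norm_num)) (nz hp 3 (by norm_num) (by norm_num))
  simp only [gv_win, sm_sub]
  rw [← h, sub_self]

theorem map11 (hp : 11 ≤ p) (c : ZMod p → ℕ) :
    sm (fun x d => (gv TB11 (win c x d) [1, 6, 9] : ℤ) - gv TB11 (win c x d) [5, 6, 7]) = 0 := by
  have h := sm_affine c (fun l => (gvl TB11 l : ℤ)) 5 1 28 0 ([5, 6, 7].map Sf) ([1, 6, 9].map Sf)
    (by simp [Sf]) (nz hp 5 (by norm_num) (by norm_num)) (nz hp 1 (by norm_num) (by norm_num))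
  simp only [gv_win, sm_sub]
  rw [← h, sub_self]

theorem sm_cost (hp : 11 ≤ p) (c : ZMod p → ℕ) :
    sm (fun x d => cost (win c x d)) = 129999 * Pc c + (-38424) * Pc (fun x => c x / 2) := by
  unfold cost
  simp only [sm_add]
  rw [sm_pr c _ _ 1 (nz hp 2 (by norm_num) (by norm_num)), sm_pr c _ _ 2 (nz hp 3 (by norm_num) (by norm_num)), sm_pr c _ _ 3 (nz hp 4 (by norm_num) (by norm_num)), sm_pr c _ _ 4 (nz hp 5 (by norm_num) (by norm_num)), sm_pr c _ _ 5 (nz hp 6 (by norm_num) (by norm_num)), sm_pr c _ _ 6 (nz hp 7 (by norm_num) (by norm_num)), sm_pr c _ _ 7 (nz hp 8 (by norm_num) (by norm_num)), sm_pr c _ _ 8 (nz hp 9 (by norm_num) (by norm_num)), sm_pr c _ _ 9 (nz hp 12 (by norm_num) (by norm_num)), map0 hp c, map1 hp c, map2 hp c, map3 hp c, map4 hp c, map5 hp c, map6 hp c, map7 hp c, map8 hp c, map9 hp c, map10 hp c, map11 hp c]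
  ring

theorem ap4_0 (hp : 11 ≤ p) (c : ZMod p → ℕ) :
    sm (fun x d => if nb RT (ix (win c x d) [1, 2, 3, 4]) = false then (1 : ℤ) else 0) = R4 c := by
  have h := sm_affine c (fun l => if nb RT (ixl l) = false then (1 : ℤ) else 0) 1 1 2 0
    ([1, 2, 3, 4].map Sf) [0, 1, 2, 3] (by simp [Sf]) (nz hp 1 (by norm_num) (by norm_num))
    (nz hp 1 (by norm_num) (by norm_num))
  simp only [ix_win]
  exact h

theorem ap4_1 (hp : 11 ≤ p) (c : ZMod p → ℕ) :
    sm (fun x d => if nb RT (ix (win c x d) [2, 3, 4, 5]) = false then (1 : ℤ) else 0) = R4 c := by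
  have h := sm_affine c (fun l => if nb RT (ixl l) = false then (1 : ℤ) else 0) 1 1 3 0
    ([2, 3, 4, 5].map Sf) [0, 1, 2, 3] (by simp [Sf]) (nz hp 1 (by norm_num) (by norm_num))
    (nz hp 1 (by norm_num) (by norm_num))
  simp only [ix_win]
  exact h

theorem ap4_2 (hp : 11 ≤ p) (c : ZMod p → ℕ) :
    sm (fun x d => if nb RT (ix (win c x d) [3, 4, 5, 6]) = false then (1 : ℤ) else 0) = R4 c := by
  have h := sm_affine c (fun l => if nb RT (ixl l) = false then (1 : ℤ) else 0) 1 1 4 0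
    ([3, 4, 5, 6].map Sf) [0, 1, 2, 3] (by simp [Sf]) (nz hp 1 (by norm_num) (by norm_num))
    (nz hp 1 (by norm_num) (by norm_num))
  simp only [ix_win]
  exact h

theorem ap4_3 (hp : 11 ≤ p) (c : ZMod p → ℕ) :
    sm (fun x d => if nb RT (ix (win c x d) [4, 5, 6, 7]) = false then (1 : ℤ) else 0) = R4 c := by
  have h := sm_affine c (fun l => if nb RT (ixl l) = false then (1 : ℤ) else 0) 1 1 5 0
    ([4, 5, 6, 7].map Sf) [0, 1, 2, 3] (by simp [Sf]) (nz hp 1 (by norm_num) (by norm_num))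
    (nz hp 1 (by norm_num) (by norm_num))
  simp only [ix_win]
  exact h

theorem ap4_4 (hp : 11 ≤ p) (c : ZMod p → ℕ) :
    sm (fun x d => if nb RT (ix (win c x d) [5, 6, 7, 8]) = false then (1 : ℤ) else 0) = R4 c := by
  have h := sm_affine c (fun l => if nb RT (ixl l) = false then (1 : ℤ) else 0) 1 1 6 0
    ([5, 6, 7, 8].map Sf) [0, 1, 2, 3] (by simp [Sf]) (nz hp 1 (by norm_num) (by norm_num))
    (nz hp 1 (by norm_num) (by norm_num))
  simp only [ix_win]
  exact h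

theorem ap4_5 (hp : 11 ≤ p) (c : ZMod p → ℕ) :
    sm (fun x d => if nb RT (ix (win c x d) [0, 1, 3, 5]) = false then (1 : ℤ) else 0) = R4 c := by
  have h := sm_affine c (fun l => if nb RT (ixl l) = false then (1 : ℤ) else 0) 1 2 0 0
    ([0, 1, 3, 5].map Sf) [0, 1, 2, 3] (by simp [Sf]) (nz hp 1 (by norm_num) (by norm_num))
    (nz hp 2 (by norm_num) (by norm_num))
  simp only [ix_win]
  exact h

theorem ap4_6 (hp : 11 ≤ p) (c : ZMod p → ℕ) :
    sm (fun x d => if nb RT (ix (win c x d) [1, 3, 5, 7]) = false then (1 : ℤ) else 0) = R4 c := by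
  have h := sm_affine c (fun l => if nb RT (ixl l) = false then (1 : ℤ) else 0) 1 2 2 0
    ([1, 3, 5, 7].map Sf) [0, 1, 2, 3] (by simp [Sf]) (nz hp 1 (by norm_num) (by norm_num))
    (nz hp 2 (by norm_num) (by norm_num))
  simp only [ix_win]
  exact h

theorem ap4_7 (hp : 11 ≤ p) (c : ZMod p → ℕ) :
    sm (fun x d => if nb RT (ix (win c x d) [2, 4, 6, 8]) = false then (1 : ℤ) else 0) = R4 c := by
  have h := sm_affine c (fun l => if nb RT (ixl l) = false then (1 : ℤ) else 0) 1 2 3 0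
    ([2, 4, 6, 8].map Sf) [0, 1, 2, 3] (by simp [Sf]) (nz hp 1 (by norm_num) (by norm_num))
    (nz hp 2 (by norm_num) (by norm_num))
  simp only [ix_win]
  exact h

theorem ap4_8 (hp : 11 ≤ p) (c : ZMod p → ℕ) :
    sm (fun x d => if nb RT (ix (win c x d) [0, 2, 5, 8]) = false then (1 : ℤ) else 0) = R4 c := by
  have h := sm_affine c (fun l => if nb RT (ixl l) = false then (1 : ℤ) else 0) 1 3 0 0
    ([0, 2, 5, 8].map Sf) [0, 1, 2, 3] (by simp [Sf]) (nz hp 1 (by norm_num) (by norm_num))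
    (nz hp 3 (by norm_num) (by norm_num))
  simp only [ix_win]
  exact h

theorem ap4_9 (hp : 11 ≤ p) (c : ZMod p → ℕ) :
    sm (fun x d => if nb RT (ix (win c x d) [2, 5, 8, 9]) = false then (1 : ℤ) else 0) = R4 c := by
  have h := sm_affine c (fun l => if nb RT (ixl l) = false then (1 : ℤ) else 0) 1 3 3 0
    ([2, 5, 8, 9].map Sf) [0, 1, 2, 3] (by simp [Sf]) (nz hp 1 (by norm_num) (by norm_num))
    (nz hp 3 (by norm_num) (by norm_num))
  simp only [ix_win]
  exact h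

theorem ap4_10 (hp : 11 ≤ p) (c : ZMod p → ℕ) :
    sm (fun x d => if nb RT (ix (win c x d) [0, 3, 7, 9]) = false then (1 : ℤ) else 0) = R4 c := by
  have h := sm_affine c (fun l => if nb RT (ixl l) = false then (1 : ℤ) else 0) 1 4 0 0
    ([0, 3, 7, 9].map Sf) [0, 1, 2, 3] (by simp [Sf]) (nz hp 1 (by norm_num) (by norm_num))
    (nz hp 4 (by norm_num) (by norm_num))
  simp only [ix_win]
  exact h

theorem ap5_0 (hp : 11 ≤ p) (c : ZMod p → ℕ) :
    sm (fun x d => if nb FT (ix (win c x d) [1, 2, 3, 4, 5]) = false then (1 : ℤ) else 0) = E5 c := by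
  have h := sm_affine c (fun l => if nb FT (ixl l) = false then (1 : ℤ) else 0) 1 1 2 0
    ([1, 2, 3, 4, 5].map Sf) [0, 1, 2, 3, 4] (by simp [Sf]) (nz hp 1 (by norm_num) (by norm_num))
    (nz hp 1 (by norm_num) (by norm_num))
  simp only [ix_win]
  exact h

theorem ap5_1 (hp : 11 ≤ p) (c : ZMod p → ℕ) :
    sm (fun x d => if nb FT (ix (win c x d) [2, 3, 4, 5, 6]) = false then (1 : ℤ) else 0) = E5 c := by
  have h := sm_affine c (fun l => if nb FT (ixl l) = false then (1 : ℤ) else 0) 1 1 3 0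
    ([2, 3, 4, 5, 6].map Sf) [0, 1, 2, 3, 4] (by simp [Sf]) (nz hp 1 (by norm_num) (by norm_num))
    (nz hp 1 (by norm_num) (by norm_num))
  simp only [ix_win]
  exact h

theorem ap5_2 (hp : 11 ≤ p) (c : ZMod p → ℕ) :
    sm (fun x d => if nb FT (ix (win c x d) [3, 4, 5, 6, 7]) = false then (1 : ℤ) else 0) = E5 c := by
  have h := sm_affine c (fun l => if nb FT (ixl l) = false then (1 : ℤ) else 0) 1 1 4 0
    ([3, 4, 5, 6, 7].map Sf) [0, 1, 2, 3, 4] (by simp [Sf]) (nz hp 1 (by norm_num) (by norm_num))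
    (nz hp 1 (by norm_num) (by norm_num))
  simp only [ix_win]
  exact h

theorem ap5_3 (hp : 11 ≤ p) (c : ZMod p → ℕ) :
    sm (fun x d => if nb FT (ix (win c x d) [4, 5, 6, 7, 8]) = false then (1 : ℤ) else 0) = E5 c := by
  have h := sm_affine c (fun l => if nb FT (ixl l) = false then (1 : ℤ) else 0) 1 1 5 0
    ([4, 5, 6, 7, 8].map Sf) [0, 1, 2, 3, 4] (by simp [Sf]) (nz hp 1 (by norm_num) (by norm_num))
    (nz hp 1 (by norm_num) (by norm_num))
  simp only [ix_win]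
  exact h

theorem ap5_4 (hp : 11 ≤ p) (c : ZMod p → ℕ) :
    sm (fun x d => if nb FT (ix (win c x d) [0, 1, 3, 5, 7]) = false then (1 : ℤ) else 0) = E5 c := by
  have h := sm_affine c (fun l => if nb FT (ixl l) = false then (1 : ℤ) else 0) 1 2 0 0
    ([0, 1, 3, 5, 7].map Sf) [0, 1, 2, 3, 4] (by simp [Sf]) (nz hp 1 (by norm_num) (by norm_num))
    (nz hp 2 (by norm_num) (by norm_num))
  simp only [ix_win]
  exact h

theorem ap5_5 (hp : 11 ≤ p) (c : ZMod p → ℕ) :
    sm (fun x d => if nb FT (ix (win c x d) [0, 2, 5, 8, 9]) = false then (1 : ℤ) else 0) = E5 c := by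
  have h := sm_affine c (fun l => if nb FT (ixl l) = false then (1 : ℤ) else 0) 1 3 0 0
    ([0, 2, 5, 8, 9].map Sf) [0, 1, 2, 3, 4] (by simp [Sf]) (nz hp 1 (by norm_num) (by norm_num))
    (nz hp 3 (by norm_num) (by norm_num))
  simp only [ix_win]
  exact h

/-- number of defects of a window -/
def dfc (w : ℕ → ℕ) : ℤ :=
  (if nb RT (ix w [1, 2, 3, 4]) = false then (1 : ℤ) else 0) +
  (if nb RT (ix w [2, 3, 4, 5]) = false then (1 : ℤ) else 0) +
  (if nb RT (ix w [3, 4, 5, 6]) = false then (1 : ℤ) else 0) +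
  (if nb RT (ix w [4, 5, 6, 7]) = false then (1 : ℤ) else 0) +
  (if nb RT (ix w [5, 6, 7, 8]) = false then (1 : ℤ) else 0) +
  (if nb RT (ix w [0, 1, 3, 5]) = false then (1 : ℤ) else 0) +
  (if nb RT (ix w [1, 3, 5, 7]) = false then (1 : ℤ) else 0) +
  (if nb RT (ix w [2, 4, 6, 8]) = false then (1 : ℤ) else 0) +
  (if nb RT (ix w [0, 2, 5, 8]) = false then (1 : ℤ) else 0) +
  (if nb RT (ix w [2, 5, 8, 9]) = false then (1 : ℤ) else 0) +
  (if nb RT (ix w [0, 3, 7, 9]) = false then (1 : ℤ) else 0) +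
  (if nb FT (ix w [1, 2, 3, 4, 5]) = false then (1 : ℤ) else 0) +
  (if nb FT (ix w [2, 3, 4, 5, 6]) = false then (1 : ℤ) else 0) +
  (if nb FT (ix w [3, 4, 5, 6, 7]) = false then (1 : ℤ) else 0) +
  (if nb FT (ix w [4, 5, 6, 7, 8]) = false then (1 : ℤ) else 0) +
  (if nb FT (ix w [0, 1, 3, 5, 7]) = false then (1 : ℤ) else 0) +
  (if nb FT (ix w [0, 2, 5, 8, 9]) = false then (1 : ℤ) else 0)

theorem ite_nonneg' (P : Prop) [Decidable P] : (0 : ℤ) ≤ if P then (1 : ℤ) else 0 := by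
  split_ifs <;> norm_num

theorem cost_defect (w : ℕ → ℕ) (hw : ∀ i, w i < 4) : 13798 - 845782 * dfc w ≤ cost w := by
  have r0 := ite_nonneg' (nb RT (ix w [1, 2, 3, 4]) = false)
  have r1 := ite_nonneg' (nb RT (ix w [2, 3, 4, 5]) = false)
  have r2 := ite_nonneg' (nb RT (ix w [3, 4, 5, 6]) = false)
  have r3 := ite_nonneg' (nb RT (ix w [4, 5, 6, 7]) = false)
  have r4 := ite_nonneg' (nb RT (ix w [5, 6, 7, 8]) = false)
  have r5 := ite_nonneg' (nb RT (ix w [0, 1, 3, 5]) = false)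
  have r6 := ite_nonneg' (nb RT (ix w [1, 3, 5, 7]) = false)
  have r7 := ite_nonneg' (nb RT (ix w [2, 4, 6, 8]) = false)
  have r8 := ite_nonneg' (nb RT (ix w [0, 2, 5, 8]) = false)
  have r9 := ite_nonneg' (nb RT (ix w [2, 5, 8, 9]) = false)
  have r10 := ite_nonneg' (nb RT (ix w [0, 3, 7, 9]) = false)
  have f0 := ite_nonneg' (nb FT (ix w [1, 2, 3, 4, 5]) = false)
  have f1 := ite_nonneg' (nb FT (ix w [2, 3, 4, 5, 6]) = false)
  have f2 := ite_nonneg' (nb FT (ix w [3, 4, 5, 6, 7]) = false)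
  have f3 := ite_nonneg' (nb FT (ix w [4, 5, 6, 7, 8]) = false)
  have f4 := ite_nonneg' (nb FT (ix w [0, 1, 3, 5, 7]) = false)
  have f5 := ite_nonneg' (nb FT (ix w [0, 2, 5, 8, 9]) = false)
  by_cases h : Adm w
  · have h1 := cost_adm w hw h
    have h2 : 0 ≤ dfc w := by
      unfold dfc
      omega
    omega
  · have h1 := cost_ge w hw
    have h2 : 1 ≤ dfc w := by
      by_contra hlt
      apply h
      unfold dfc at hlt
      have ar0 : nb RT (ix w [1, 2, 3, 4]) = true := by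
        by_contra hc
        rw [Bool.not_eq_true] at hc
        rw [if_pos hc] at hlt
        omega
      have ar1 : nb RT (ix w [2, 3, 4, 5]) = true := by
        by_contra hc
        rw [Bool.not_eq_true] at hc
        rw [if_pos hc] at hlt
        omega
      have ar2 : nb RT (ix w [3, 4, 5, 6]) = true := by
        by_contra hc
        rw [Bool.not_eq_true] at hc
        rw [if_pos hc] at hlt
        omega
      have ar3 : nb RT (ix w [4, 5, 6, 7]) = true := by
        by_contra hc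
        rw [Bool.not_eq_true] at hc
        rw [if_pos hc] at hlt
        omega
      have ar4 : nb RT (ix w [5, 6, 7, 8]) = true := by
        by_contra hc
        rw [Bool.not_eq_true] at hc
        rw [if_pos hc] at hlt
        omega
      have ar5 : nb RT (ix w [0, 1, 3, 5]) = true := by
        by_contra hc
        rw [Bool.not_eq_true] at hc
        rw [if_pos hc] at hlt
        omega
      have ar6 : nb RT (ix w [1, 3, 5, 7]) = true := by
        by_contra hc
        rw [Bool.not_eq_true] at hc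
        rw [if_pos hc] at hlt
        omega
      have ar7 : nb RT (ix w [2, 4, 6, 8]) = true := by
        by_contra hc
        rw [Bool.not_eq_true] at hc
        rw [if_pos hc] at hlt
        omega
      have ar8 : nb RT (ix w [0, 2, 5, 8]) = true := by
        by_contra hc
        rw [Bool.not_eq_true] at hc
        rw [if_pos hc] at hlt
        omega
      have ar9 : nb RT (ix w [2, 5, 8, 9]) = true := by
        by_contra hc
        rw [Bool.not_eq_true] at hc
        rw [if_pos hc] at hlt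
        omega
      have ar10 : nb RT (ix w [0, 3, 7, 9]) = true := by
        by_contra hc
        rw [Bool.not_eq_true] at hc
        rw [if_pos hc] at hlt
        omega
      have af0 : nb FT (ix w [1, 2, 3, 4, 5]) = true := by
        by_contra hc
        rw [Bool.not_eq_true] at hc
        rw [if_pos hc] at hlt
        omega
      have af1 : nb FT (ix w [2, 3, 4, 5, 6]) = true := by
        by_contra hc
        rw [Bool.not_eq_true] at hc
        rw [if_pos hc] at hlt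
        omega
      have af2 : nb FT (ix w [3, 4, 5, 6, 7]) = true := by
        by_contra hc
        rw [Bool.not_eq_true] at hc
        rw [if_pos hc] at hlt
        omega
      have af3 : nb FT (ix w [4, 5, 6, 7, 8]) = true := by
        by_contra hc
        rw [Bool.not_eq_true] at hc
        rw [if_pos hc] at hlt
        omega
      have af4 : nb FT (ix w [0, 1, 3, 5, 7]) = true := by
        by_contra hc
        rw [Bool.not_eq_true] at hc
        rw [if_pos hc] at hlt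
        omega
      have af5 : nb FT (ix w [0, 2, 5, 8, 9]) = true := by
        by_contra hc
        rw [Bool.not_eq_true] at hc
        rw [if_pos hc] at hlt
        omega
      exact ⟨ar0, ar1, ar2, ar3, ar4, ar5, ar6, ar7, ar8, ar9, ar10, af0, af1, af2, af3, af4, af5⟩
    omega

theorem sm_dfc (hp : 11 ≤ p) (c : ZMod p → ℕ) :
    sm (fun x d => dfc (win c x d)) = 11 * R4 c + 6 * E5 c := by
  unfold dfc
  simp only [sm_add]
  rw [ap4_0 hp c, ap4_1 hp c, ap4_2 hp c, ap4_3 hp c, ap4_4 hp c, ap4_5 hp c, ap4_6 hp c, ap4_7 hp c, ap4_8 hp c, ap4_9 hp c, ap4_10 hp c, ap5_0 hp c, ap5_1 hp c, ap5_2 hp c, ap5_3 hp c, ap5_4 hp c, ap5_5 hp c]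
  ring

theorem master (hp : 11 ≤ p) (c : ZMod p → ℕ) (hc : ∀ x, c x < 4) :
    13798 * ((p : ℤ) * (p - 1)) ≤ 129999 * Pc c + (-38424) * Pc (fun x => c x / 2)
      + 845782 * (11 * R4 c + 6 * E5 c) := by
  have h1 : sm (fun x d => 13798 - 845782 * dfc (win c x d)) ≤ sm (fun x d => cost (win c x d)) :=
    sm_mono _ _ fun x d _ => cost_defect _ fun i => hc _
  rw [sm_sub, sm_const, sm_mul, sm_dfc hp, sm_cost hp] at h1
  linarith

end RBX
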