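import Pool.Agent.RBX.Final

namespace RBX
open Finset

variable {p : ℕ} [Fact p.Prime]

theorem exists_perm : ∀ i j : Fin 4, i ≠ j → ∃ σ : Equiv.Perm (Fin 4), σ i = 0 ∧ σ j = 1 := by
  decide +kernel

theorem csz_perm (c : ZMod p → Fin 4) (σ : Equiv.Perm (Fin 4)) (i : Fin 4) :
    csz (fun x => σ (c x)) i = csz c (σ.symm i) := by
  unfold csz
  congr 1
  ext x
  simp only [Set.mem_ofPred_eq]
  exact Equiv.apply_eq_iff_eq_symm_apply σ

theorem rbc_perm (c : ZMod p → Fin 4) (σ : Equiv.Perm (Fin 4)) :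
    rbc (fun x => σ (c x)) = rbc c := by
  unfold rbc
  congr 1
  ext q
  simp only [Set.mem_ofPred_eq]
  have := List.nodup_map_iff (f := σ) (l := [c q.1, c (q.1 + q.2), c (q.1 + 2 * q.2), c (q.1 + 3 * q.2)])
    σ.injective
  simp only [List.map_cons, List.map_nil] at this
  rw [this]

theorem pair_perm (c : ZMod p → Fin 4) (σ : Equiv.Perm (Fin 4)) (i j : Fin 4) (hi : σ i = 0)
    (hj : σ j = 1) : ({x | σ (c x) = 0 ∨ σ (c x) = 1} : Set (ZMod p)) = {x | c x = i ∨ c x = j} := by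
  ext x
  simp only [Set.mem_ofPred_eq]
  rw [← hi, ← hj]
  simp only [EmbeddingLike.apply_eq_iff_eq]

/-- the theorem for every pair of colours -/
theorem nearij (hp : 11 ≤ p) (c : ZMod p → Fin 4)
    (hc : ∀ i, |(csz c i : ℝ) - p / 4| ≤ 3 / 4 + p / 40)
    (i j : Fin 4) (hij : i ≠ j)
    (hH : |((({x | c x = i ∨ c x = j} : Set (ZMod p)).ncard : ℕ) : ℝ) - p / 2| ≤ 1 / 2 + p / 1000000)
    (a q : ZMod p) (m : ℕ) (hq : q ≠ 0)
    (hI : ((symmDiff {x | c x = i ∨ c x = j} (apSet a q m)).ncard : ℝ) ≤ p / 1000000) :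
    p ^ 2 ≤ 160000 * rbc c := by
  obtain ⟨σ, hi, hj⟩ := exists_perm i j hij
  rw [← rbc_perm c σ]
  refine near01 hp (fun x => σ (c x)) ?_ ?_ a q m hq ?_
  · intro k
    rw [csz_perm]
    have h := hc (σ.symm k)
    have h2 : (10 : ℝ) * |4 * (csz c (σ.symm k) : ℝ) - p| ≤ p + 30 := by
      have e : (4 : ℝ) * (csz c (σ.symm k) : ℝ) - p = 4 * ((csz c (σ.symm k) : ℝ) - p / 4) := by ring
      rw [e, abs_mul, abs_of_pos (by norm_num : (0 : ℝ) < 4)]
      linarith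
    exact_mod_cast h2
  · rw [pair_perm c σ i j hi hj]
    have h2 : (1000000 : ℝ) * |2 * ((({x | c x = i ∨ c x = j} : Set (ZMod p)).ncard : ℕ) : ℝ) - p| ≤
        1000000 + 2 * p := by
      have e : (2 : ℝ) * ((({x | c x = i ∨ c x = j} : Set (ZMod p)).ncard : ℕ) : ℝ) - p
        = 2 * (((({x | c x = i ∨ c x = j} : Set (ZMod p)).ncard : ℕ) : ℝ) - p / 2) := by ring
      rw [e, abs_mul, abs_of_pos (by norm_num : (0 : ℝ) < 2)]
      linarith
    exact_mod_cast h2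
  · rw [pair_perm c σ i j hi hj]
    have h2 : (1000000 : ℝ) * ((symmDiff {x | c x = i ∨ c x = j} (apSet a q m)).ncard : ℝ) ≤ p := by
      linarith
    exact_mod_cast h2

/-- the inequality with the isolated patterns, every pair of colours -/
theorem mainij (hp : 11 ≤ p) (c : ZMod p → Fin 4) (i j : Fin 4) (hij : i ≠ j) :
    8164 * (p : ℤ) ^ 2 + 1244432 * p ≤
      129999 * (∑ k : Fin 4, (4 * (csz c k : ℤ) - p) ^ 2) +
      13532512 * (11 * (rbc c : ℤ) + 6 * (isc {x | c x = i ∨ c x = j} : ℤ)) := by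
  obtain ⟨σ, hi, hj⟩ := exists_perm i j hij
  have h := main01 hp (fun x => σ (c x))
  rw [rbc_perm, pair_perm c σ i j hi hj] at h
  have e : (4 * (csz (fun x => σ (c x)) 0 : ℤ) - p) ^ 2 + (4 * (csz (fun x => σ (c x)) 1 : ℤ) - p) ^ 2 +
        (4 * (csz (fun x => σ (c x)) 2 : ℤ) - p) ^ 2 + (4 * (csz (fun x => σ (c x)) 3 : ℤ) - p) ^ 2
      = ∑ k : Fin 4, (4 * (csz c k : ℤ) - p) ^ 2 := by
    rw [← Equiv.sum_comp σ.symm, Fin.sum_univ_four]
    simp only [csz_perm]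
  rw [e] at h
  exact h

/-- the corollary for nearly balanced colourings -/
theorem isoij (hp : 11 ≤ p) (c : ZMod p → Fin 4)
    (hc : ∀ i, |(csz c i : ℝ) - p / 4| ≤ 3 / 4 + p / 40) (i j : Fin 4) (hij : i ≠ j) :
    p ^ 2 ≤ 51000 * rbc c + 28000 * isc {x | c x = i ∨ c x = j} := by
  have h := mainij hp c i j hij
  have hb : ∀ k : Fin 4, 100 * (4 * (csz c k : ℤ) - p) ^ 2 ≤ ((p : ℤ) + 30) ^ 2 := by
    intro k
    have h1 := hc k
    have h2 : (10 : ℝ) * |4 * (csz c k : ℝ) - p| ≤ p + 30 := by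
      have e : (4 : ℝ) * (csz c k : ℝ) - p = 4 * ((csz c k : ℝ) - p / 4) := by ring
      rw [e, abs_mul, abs_of_pos (by norm_num : (0 : ℝ) < 4)]
      linarith
    have h3 : 10 * |4 * (csz c k : ℤ) - p| ≤ (p : ℤ) + 30 := by exact_mod_cast h2
    have h4 : (10 * |4 * (csz c k : ℤ) - p|) ^ 2 ≤ ((p : ℤ) + 30) ^ 2 := by
      apply sq_le_sq'
      · have := abs_nonneg (4 * (csz c k : ℤ) - p)
        have h0 : (0 : ℤ) ≤ p := by positivity
        linarith
      · exact h3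
    rw [mul_pow, sq_abs] at h4
    norm_num at h4
    exact h4
  have h0 := hb 0
  have h1 := hb 1
  have h2 := hb 2
  have h3 := hb 3
  rw [Fin.sum_univ_four] at h
  have hp' : (11 : ℤ) ≤ p := by exact_mod_cast hp
  have hr : (0 : ℤ) ≤ (rbc c : ℤ) := by positivity
  have hi : (0 : ℤ) ≤ (isc {x | c x = i ∨ c x = j} : ℤ) := by positivity
  have : (p : ℤ) ^ 2 ≤ 51000 * (rbc c : ℤ) + 28000 * (isc {x | c x = i ∨ c x = j} : ℤ) := by
    nlinarith
  exact_mod_cast this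

end RBX
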