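import Pool.Agent.RBX.Tb

namespace RBX

/-- packed value of the first digits -/
def pk (w : ℕ → ℕ) : ℕ → ℕ
  | 0 => 0
  | i + 1 => pk w i + w i * 4 ^ i

/-- packed value of the digits at the places of a list -/
def ix (w : ℕ → ℕ) : List ℕ → ℕ
  | [] => 0
  | t :: T => w t + 4 * ix w T

/-- repunit in base 4 -/
def Rr : ℕ → ℕ
  | 0 => 0
  | L + 1 => 1 + 4 * Rr L

/-- total increment along a window -/
def tot (w : ℕ → ℕ) : List ((ℕ → Bool) × (ℕ → ℕ)) → ℕ → ℕ
  | [], _ => 0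
  | l :: L, i => l.2 (pk w (i + 1)) + tot w L (i + 1)

/-- all tests along a window pass -/
def aok (w : ℕ → ℕ) : List ((ℕ → Bool) × (ℕ → ℕ)) → ℕ → Prop
  | [], _ => True
  | l :: L, i => l.1 (pk w (i + 1)) = true ∧ aok w L (i + 1)

theorem dfs_sound (thr : ℕ) (w : ℕ → ℕ) (hw : ∀ i, w i < 4) :
    ∀ (L : List ((ℕ → Bool) × (ℕ → ℕ))) (i acc : ℕ),
      dfs thr L (4 ^ i) (pk w i) acc = true → aok w L i → thr ≤ acc + tot w L i := by
  intro L
  induction L with
  | nil =>
    intro i acc h _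
    simp only [dfs] at h
    have := Nat.le_of_ble_eq_true h
    simp only [tot]
    omega
  | cons l L ih =>
    intro i acc h hok
    obtain ⟨ok, inc⟩ := l
    obtain ⟨h0, hok'⟩ := hok
    simp only at h0
    have key : dfs thr L (4 ^ (i + 1)) (pk w (i + 1)) (acc + inc (pk w (i + 1))) = true := by
      have e1 : Nat.mul 4 (4 ^ i) = 4 ^ (i + 1) := by
        show 4 * 4 ^ i = 4 ^ (i + 1)
        rw [pow_succ]; ring
      simp only [dfs, Bool.and_eq_true, e1] at h
      obtain ⟨⟨⟨a0, a1⟩, a2⟩, a3⟩ := h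
      have hwi := hw i
      have hpk : pk w (i + 1) = pk w i + w i * 4 ^ i := rfl
      rcases (by omega : w i = 0 ∨ w i = 1 ∨ w i = 2 ∨ w i = 3) with e | e | e | e
      · have e2 : pk w (i + 1) = pk w i := by rw [hpk, e]; simp
        rw [e2] at h0 ⊢
        simpa [h0] using a0
      · have e2 : Nat.add (pk w i) (4 ^ i) = pk w (i + 1) := by rw [hpk, e]; simp
        rw [e2, h0] at a1
        simpa using a1
      · have e2 : Nat.add (pk w i) (Nat.mul 2 (4 ^ i)) = pk w (i + 1) := by rw [hpk, e]; rfl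
        rw [e2, h0] at a2
        simpa using a2
      · have e2 : Nat.add (pk w i) (Nat.mul 3 (4 ^ i)) = pk w (i + 1) := by rw [hpk, e]; rfl
        rw [e2, h0] at a3
        simpa using a3
    have := ih (i + 1) (acc + inc (pk w (i + 1))) key hok'
    simp only [tot]
    omega

theorem xor4 (u v a b : ℕ) (hu : u < 4) (ha : a < 4) :
    (u + 4 * v) ^^^ (a + 4 * b) = (u ^^^ a) + 4 * (v ^^^ b) := by
  have h1 : ((u + 4 * v) ^^^ (a + 4 * b)) % 4 = u ^^^ a := by
    have := Nat.xor_mod_two_pow (a := u + 4 * v) (b := a + 4 * b) (n := 2)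
    rw [show (2 : ℕ) ^ 2 = 4 from rfl] at this
    rw [this]
    congr 1 <;> omega
  have h2 : ((u + 4 * v) ^^^ (a + 4 * b)) / 4 = v ^^^ b := by
    have := Nat.xor_div_two_pow (a := u + 4 * v) (b := a + 4 * b) (n := 2)
    rw [show (2 : ℕ) ^ 2 = 4 from rfl] at this
    rw [this]
    congr 1 <;> omega
  omega

theorem xlt {a b : ℕ} (ha : a < 4) (hb : b < 4) : a ^^^ b < 4 :=
  Nat.xor_lt_two_pow (n := 2) ha hb

theorem ix_xor (w : ℕ → ℕ) (hw : ∀ i, w i < 4) (a : ℕ) (ha : a < 4) :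
    ∀ T : List ℕ, ix w T ^^^ (a * Rr T.length) = ix (fun i => w i ^^^ a) T := by
  intro T
  induction T with
  | nil => simp [ix, Rr]
  | cons t T ih =>
    have e : a * Rr (t :: T).length = a + 4 * (a * Rr T.length) := by
      simp only [List.length_cons, Rr]; ring
    rw [e]
    simp only [ix]
    rw [xor4 _ _ _ _ (hw t) ha, ih]

theorem rl_eq (w : ℕ → ℕ) (hw : ∀ i, w i < 4) (t : ℕ) (T : List ℕ) :
    rl (Rr (T.length + 1)) (ix w (t :: T)) = ix (fun i => w i ^^^ w t) T := by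
  have h1 : (ix w (t :: T)) % 4 = w t := by
    simp only [ix]; have := hw t; omega
  have h2 : rl (Rr (T.length + 1)) (ix w (t :: T))
      = ((ix w (t :: T)) ^^^ ((ix w (t :: T)) % 4 * Rr (T.length + 1))) >>> 2 := rfl
  rw [h2, h1]
  have e : w t * Rr (T.length + 1) = w t + 4 * (w t * Rr T.length) := by
    simp only [Rr]; ring
  rw [e]
  simp only [ix]
  rw [xor4 _ _ _ _ (hw t) (hw t), ix_xor w hw (w t) (hw t) T, Nat.shiftRight_eq_div_pow]
  rw [Nat.xor_self]; omega

/-- value of a table at a sub-window (relative digits) -/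
def gv (t : ℕ) (w : ℕ → ℕ) : List ℕ → ℕ
  | [] => 0
  | s :: T => (t >>> (16 * ix (fun i => w i ^^^ w s) T)) % 65536

theorem lk_eq (tb : ℕ) (w : ℕ → ℕ) (hw : ∀ i, w i < 4) (t : ℕ) (T : List ℕ) (R v : ℕ)
    (hR : R = Rr (T.length + 1)) (hv : v = ix w (t :: T)) :
    lk tb R v = gv tb w (t :: T) := by
  subst hR hv
  have h2 : lk tb (Rr (T.length + 1)) (ix w (t :: T))
      = (tb >>> (16 * rl (Rr (T.length + 1)) (ix w (t :: T)))) % 65536 := rfl
  rw [h2, rl_eq w hw]
  rfl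

theorem lc_eq (tb : ℕ) (w : ℕ → ℕ) (hw : ∀ i, w i < 4) (t : ℕ) (T : List ℕ) (R v : ℕ)
    (hR : R = Rr (T.length + 1)) (hv : v = ix w (t :: T)) :
    lc tb R v = 65535 - gv tb w (t :: T) := by
  have h2 : lc tb R v = 65535 - lk tb R v := rfl
  rw [h2, lk_eq tb w hw t T R v hR hv]

theorem gv_lt (tb : ℕ) (w : ℕ → ℕ) (T : List ℕ) : gv tb w T < 65536 := by
  cases T with
  | nil => simp [gv]
  | cons s T => exact Nat.mod_lt _ (by norm_num)

theorem gv_xor (tb : ℕ) (w : ℕ → ℕ) (a : ℕ) (T : List ℕ) :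
    gv tb (fun i => w i ^^^ a) T = gv tb w T := by
  cases T with
  | nil => rfl
  | cons s T =>
    simp only [gv]
    have : (fun i => (w i ^^^ a) ^^^ (w s ^^^ a)) = fun i => w i ^^^ w s := by
      funext i
      rw [Nat.xor_comm (w s) a, ← Nat.xor_assoc, Nat.xor_assoc (w i) a a, Nat.xor_self, Nat.xor_zero]
    rw [this]

theorem pk_div (w : ℕ → ℕ) (hw : ∀ i, w i < 4) :
    ∀ (k s : ℕ), pk w (s + k) = pk w s + 4 ^ s * ix w (List.range' s k) := by
  intro k
  induction k with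
  | zero => intro s; simp [ix]
  | succ k ih =>
    intro s
    have h1 : s + (k + 1) = (s + 1) + k := by ring
    rw [h1, ih (s + 1)]
    rw [List.range'_succ]
    simp only [ix, pk, pow_succ]
    ring

theorem pk_lt (w : ℕ → ℕ) (hw : ∀ i, w i < 4) : ∀ s, pk w s < 4 ^ s := by
  intro s
  induction s with
  | zero => simp [pk]
  | succ s ih =>
    have := hw s
    simp only [pk, pow_succ]
    nlinarith [Nat.pos_of_ne_zero (pow_ne_zero s (by norm_num : (4 : ℕ) ≠ 0))]

theorem pk_run' (w : ℕ → ℕ) (hw : ∀ i, w i < 4) (n s : ℕ) (k : ℕ) (hk : n = s + k) :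
    pk w n >>> (2 * s) = ix w (List.range' s k) := by
  rw [hk, pk_div w hw k s, Nat.shiftRight_eq_div_pow, pow_mul]
  rw [show (2 : ℕ) ^ 2 = 4 from rfl, Nat.add_mul_div_left _ _ (by positivity),
    Nat.div_eq_of_lt (pk_lt w hw s)]
  simp

theorem ix_run_mod (w : ℕ → ℕ) (hw : ∀ i, w i < 4) :
    ∀ (l s k : ℕ), ix w (List.range' s (l + k)) % 4 ^ l = ix w (List.range' s l) := by
  intro l
  induction l with
  | zero => intro s k; simp [ix, Nat.mod_one]
  | succ l ih =>
    intro s k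
    have h1 : l + 1 + k = (l + k) + 1 := by ring
    rw [h1, List.range'_succ, List.range'_succ]
    simp only [ix]
    have h2 := ih (s + 1) k
    have h3 : (4 : ℕ) ^ (l + 1) = 4 * 4 ^ l := by rw [pow_succ]; ring
    rw [h3, Nat.mod_mul, Nat.add_mul_mod_self_left, Nat.mod_eq_of_lt (hw s),
      Nat.add_mul_div_left _ _ (by norm_num), Nat.div_eq_of_lt (hw s), Nat.zero_add, h2]

theorem pk_run (w : ℕ → ℕ) (hw : ∀ i, w i < 4) (n s l : ℕ) (k : ℕ) (hk : n = s + (l + k)) :
    (pk w n >>> (2 * s)) % 4 ^ l = ix w (List.range' s l) := by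
  rw [pk_run' w hw n s (l + k) hk, ix_run_mod w hw]

/-- value lists determine `ix` -/
theorem ix_map (w : ℕ → ℕ) (S : ℕ → ℕ) (T : List ℕ) : ix (fun i => w (S i)) T = ix w (T.map S) := by
  induction T with
  | nil => rfl
  | cons t T ih => simp only [ix, List.map_cons, ih]

end RBX
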