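import Pool.Agent.RBX.Cost
import Pool.Agent.RBX.Kc

namespace RBX

theorem ix_lt (w : ℕ → ℕ) (hw : ∀ i, w i < 4) : ∀ T : List ℕ, ix w T < 4 ^ T.length := by
  intro T
  induction T with
  | nil => simp [ix]
  | cons t T ih =>
    have := hw t
    simp only [ix, List.length_cons, pow_succ]
    omega

set_option maxRecDepth 100000 in
theorem RT_xor : ∀ v < 256, ∀ a < 4, nb RT (v ^^^ (a * 85)) = nb RT v := by decide +kernel

set_option maxRecDepth 100000 in
theorem FT_xor : ∀ v < 1024, ∀ a < 4, nb FT (v ^^^ (a * 341)) = nb FT v := by decide +kernel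

theorem RT_ix (w : ℕ → ℕ) (hw : ∀ i, w i < 4) (a : ℕ) (ha : a < 4) (T : List ℕ) (hT : T.length = 4) :
    nb RT (ix (fun i => w i ^^^ a) T) = nb RT (ix w T) := by
  rw [← ix_xor w hw a ha T, hT]
  exact RT_xor _ (by have := ix_lt w hw T; rwa [hT] at this) a ha

theorem FT_ix (w : ℕ → ℕ) (hw : ∀ i, w i < 4) (a : ℕ) (ha : a < 4) (T : List ℕ) (hT : T.length = 5) :
    nb FT (ix (fun i => w i ^^^ a) T) = nb FT (ix w T) := by
  rw [← ix_xor w hw a ha T, hT]
  exact FT_xor _ (by have := ix_lt w hw T; rwa [hT] at this) a ha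

theorem Adm.xor {w : ℕ → ℕ} (h : Adm w) (hw : ∀ i, w i < 4) (a : ℕ) (ha : a < 4) :
    Adm (fun i => w i ^^^ a) where
  r0 := by rw [RT_ix w hw a ha _ rfl]; exact h.r0
  r1 := by rw [RT_ix w hw a ha _ rfl]; exact h.r1
  r2 := by rw [RT_ix w hw a ha _ rfl]; exact h.r2
  r3 := by rw [RT_ix w hw a ha _ rfl]; exact h.r3
  r4 := by rw [RT_ix w hw a ha _ rfl]; exact h.r4
  r5 := by rw [RT_ix w hw a ha _ rfl]; exact h.r5
  r6 := by rw [RT_ix w hw a ha _ rfl]; exact h.r6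
  r7 := by rw [RT_ix w hw a ha _ rfl]; exact h.r7
  r8 := by rw [RT_ix w hw a ha _ rfl]; exact h.r8
  r9 := by rw [RT_ix w hw a ha _ rfl]; exact h.r9
  r10 := by rw [RT_ix w hw a ha _ rfl]; exact h.r10
  f0 := by rw [FT_ix w hw a ha _ rfl]; exact h.f0
  f1 := by rw [FT_ix w hw a ha _ rfl]; exact h.f1
  f2 := by rw [FT_ix w hw a ha _ rfl]; exact h.f2
  f3 := by rw [FT_ix w hw a ha _ rfl]; exact h.f3
  f4 := by rw [FT_ix w hw a ha _ rfl]; exact h.f4
  f5 := by rw [FT_ix w hw a ha _ rfl]; exact h.f5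

theorem xor_inj_iff (x y a : ℕ) : x ^^^ a = y ^^^ a ↔ x = y := by
  constructor
  · intro h
    have := congrArg (fun z => z ^^^ a) h
    simpa [Nat.xor_assoc] using this
  · rintro rfl; rfl

theorem xor_half (x a : ℕ) : (x ^^^ a) / 2 = (x / 2) ^^^ (a / 2) := by
  have := Nat.xor_div_two_pow (a := x) (b := a) (n := 1)
  simpa using this

theorem pr_xor (w : ℕ → ℕ) (l k : ℤ) (j a : ℕ) : pr (fun i => w i ^^^ a) l k j = pr w l k j := by
  unfold pr
  simp only [xor_inj_iff, xor_half]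

theorem cost_xor (w : ℕ → ℕ) (a : ℕ) : cost (fun i => w i ^^^ a) = cost w := by
  unfold cost
  simp only [pr_xor, gv_xor]

theorem cost_ge (w : ℕ → ℕ) (hw : ∀ i, w i < 4) : -831984 ≤ cost w := by
  have h := tot_eq (fun i => w i ^^^ w 0) (fun i => xlt (hw i) (hw 0)) (Nat.xor_self _)
  rw [cost_xor] at h
  omega

theorem cost_adm (w : ℕ → ℕ) (hw : ∀ i, w i < 4) (ha : Adm w) : 13798 ≤ cost w := by
  have hw' : ∀ i, (fun i => w i ^^^ w 0) i < 4 := fun i => xlt (hw i) (hw 0)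
  have h := tot_eq (fun i => w i ^^^ w 0) hw' (Nat.xor_self _)
  rw [cost_xor] at h
  have h2 := dfs_sound thr (fun i => w i ^^^ w 0) hw' levels 1 0 (by
    have e : pk (fun i => w i ^^^ w 0) 1 = 0 := by simp [pk]
    rw [e]
    exact chk) (aok_of_adm _ hw' (ha.xor hw (w 0) (hw 0)))
  have h3 : thr = 845782 := rfl
  omega

end RBX
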